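import Pool.Agent.H52.FR.Lif

/-!
# [H52 FR SHQ] rooted descending links of the complex

Rank and depth on `X` are those of the images in `Y` (`R ∘ q`, `δ (q x) (q y)`).
`dp_uniq`: `q z = q z'` by `Rooted.uniq`; `z' = n • z`.  If `x` or `y` is a cell then `z = z'` by types (`fix_cell`).  Otherwise `z` is a cell, `{x, y}` = point and hyperedge, `n` fixes both (`fix_cell` in the cell
`z'`, which is adjacent to `n • x` and `x`); if `n ≠ 1` then the hyperedge is fixed, `Crit (q x) (q y)`, contradiction to `Rooted.crit`.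
`orb`: `Par` in `X` implies `Par` in `Y` (`lift_tri`), so `q a = q a'`, `a' = n • a`.  `a` cell: `n • x` and `x` are neighbours of `a'`: `n • x = x` (`fix_cell`).  `x` cell: `a = a'` (`fix_cell`), take `1`.
`x` point, `a` hyperedge: `n • x = x` (`fix_hyp`).  `x` hyperedge, `a` point: `a = a'` (`fix_hyp`).
`stab`: if `x` or `a` is a cell: `TAct.free`.  Otherwise `{x, a} = {p, e}`: if some `n ≠ 1` fixes `e` then `N_p` and `N_e` are equal (`Full`, and `n • e = e` implies `n • p = p` by `fix_hyp`): second alternative; if none, the first one.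
`base`: by `lift_edge` the image has no descending neighbours.
-/

set_option autoImplicit false

namespace Pool.Agent.H52.FR

open Pool.Agent.H54.CX Pool.Agent.H59.DE

variable {W U T : Type} {X : Cpx W} {kd : W → ℕ} {τ : W → T} {Y : Cpx U} {kd' : U → ℕ} {τ' : U → T} {q : W → U}
  {N : Type} [Group N] [MulAction N W]

theorem sh_of_rooted (hT : TC X kd τ) (ha : TAct X kd τ N) (hfull : Full X kd N) (hq : IsQuo X kd τ Y kd' τ' q N)
    {α : Type} [LinearOrder α] {R : U → α} {δ : U → U → ℕ} {o : W} (hR : Rooted Y kd' (FXq q N) R δ (q o)) :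
    Sh X N (fun x => R (q x)) (fun x y => δ (q x) (q y)) o := by
  have hqn : ∀ (n : N) (x : W), q (n • x) = q x := fun n x => ((hq.orb x (n • x)).2 ⟨n, rfl⟩).symm
  have hE : ∀ x y, X.Edge x y → Y.Edge (q x) (q y) := fun x y h => (hq.edge _ _).2 ⟨x, y, h, rfl, rfl⟩
  have hTr : ∀ x y z, X.Tri x y z → Y.Tri (q x) (q y) (q z) := fun x y z h =>
    (hq.tri _ _ _).2 ⟨x, y, z, h, rfl, rfl, rfl⟩
  have hkd : ∀ x y, X.Edge x y → kd x ≠ 0 → kd y ≠ 0 → (kd x = 2 ∧ kd y = 1) ∨ (kd x = 1 ∧ kd y = 2) := by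
    intro x y h hx hy
    have h1 := hT.kd_le x
    have h2 := hT.kd_le y
    have h3 := hT.kd_ne x y h
    omega
  refine
    { rk_ne := fun x y h => hR.rk _ _ (hE x y h)
      rk_inv := fun n x => by
        show R (q (n • x)) = R (q x)
        rw [hqn]
      dp_inv := fun n x y => by
        show δ (q (n • x)) (q (n • y)) = δ (q x) (q y)
        rw [hqn, hqn]
      dp_ne := fun x y z h h1 h2 => hR.ne _ _ _ (hTr x y z h) h1 h2
      dp_uniq := ?_
      orb := ?_
      stab := ?_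
      base := ?_ }
  · intro x y z z' hz hz' hy1 hz1 hz1' hd hd'
    have h1 : q z = q z' := hR.uniq _ _ _ _ (hTr _ _ _ hz) (hTr _ _ _ hz') hy1 hz1 hz1' hd hd'
    obtain ⟨n, rfl⟩ := (hq.orb z z').1 h1
    have hxy : X.Edge x y := X.edge _ _ _ hz
    have hyz : X.Edge y z := X.edge _ _ _ (X.rot _ _ _ hz)
    have hzx : X.Edge z x := X.edge _ _ _ (X.rot _ _ _ (X.rot _ _ _ hz))
    have hyz' : X.Edge y (n • z) := X.edge _ _ _ (X.rot _ _ _ hz')
    have hzx' : X.Edge (n • z) x := X.edge _ _ _ (X.rot _ _ _ (X.rot _ _ _ hz'))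
    by_cases hx0 : kd x = 0
    · exact (fix_cell hT ha hx0 (X.symm _ _ hzx) (X.symm _ _ hzx')).symm
    by_cases hy0 : kd y = 0
    · exact (fix_cell hT ha hy0 hyz hyz').symm
    have hz0 : kd z = 0 := by
      have e1 := hT.kd_le x
      have e2 := hT.kd_le y
      have e3 := hT.kd_le z
      have e4 := hT.kd_ne _ _ hxy
      have e5 := hT.kd_ne _ _ hyz
      have e6 := hT.kd_ne _ _ hzx
      omega
    have hz0' : kd (n • z) = 0 := by
      rw [hT.kd_τ _ _ (ha.type n z)]
      exact hz0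
    by_cases hn : n = 1
    · rw [hn, one_smul]
    exfalso
    have hzx2 : X.Edge (n • z) (n • x) := ha.inv.edge n _ _ hzx
    have hzy2 : X.Edge (n • z) (n • y) := ha.inv.edge n _ _ (X.symm _ _ hyz)
    have hfx : n • x = x := fix_cell hT ha hz0' hzx' hzx2
    have hfy : n • y = y := fix_cell hT ha hz0' (X.symm _ _ hyz') hzy2
    refine hR.crit _ _ _ (hTr _ _ _ hz) hy1 hz1 hd ?_
    rcases hkd x y hxy hx0 hy0 with ⟨h2, h3⟩ | ⟨h2, h3⟩
    · exact Or.inl ⟨by rw [hq.kd]; exact h2, by rw [hq.kd]; exact h3, (fx_iff hq).2 ⟨n, hn, hfy⟩⟩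
    · exact Or.inr ⟨by rw [hq.kd]; exact h2, by rw [hq.kd]; exact h3, (fx_iff hq).2 ⟨n, hn, hfx⟩⟩
  · intro x a a' h h'
    have hpar : ∀ b, Par X (fun x => R (q x)) (fun x y => δ (q x) (q y)) x b → Par Y R δ (q x) (q b) := by
      rintro b ⟨h1, h2, h3⟩
      refine ⟨hE _ _ h1, h2, fun c hc hc1 => ?_⟩
      obtain ⟨z, rfl, hz⟩ := lift_tri hT ha hq h1 hc
      exact h3 z hz hc1
    have h1 : q a = q a' := hR.root _ _ _ (hpar a h) (hpar a' h')
    obtain ⟨n, rfl⟩ := (hq.orb a a').1 h1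
    have e1 : X.Edge x a := h.1
    have e2 : X.Edge x (n • a) := h'.1
    have e3 : X.Edge (n • x) (n • a) := ha.inv.edge n _ _ e1
    by_cases ha0 : kd a = 0
    · have h4 : kd (n • a) = 0 := by
        rw [hT.kd_τ _ _ (ha.type n a)]
        exact ha0
      exact ⟨n, fix_cell hT ha h4 (X.symm _ _ e2) (X.symm _ _ e3), rfl⟩
    by_cases hx0 : kd x = 0
    · exact ⟨1, one_smul _ _, by rw [one_smul]; exact (fix_cell hT ha hx0 e1 e2).symm⟩
    rcases hkd x a e1 hx0 ha0 with ⟨h2, h3⟩ | ⟨h2, h3⟩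
    · have h4 : kd (n • a) = 1 := by
        rw [hT.kd_τ _ _ (ha.type n a)]
        exact h3
      exact ⟨n, fix_hyp hT ha h4 h2 (X.symm _ _ e2) (X.symm _ _ e3), rfl⟩
    · exact ⟨1, one_smul _ _, by rw [one_smul]; exact (fix_hyp hT ha h2 h3 e1 e2).symm⟩
  · intro x a h
    have e1 : X.Edge x a := h.1
    by_cases hx0 : kd x = 0
    · exact Or.inl fun n hn _ => ha.free n x hx0 hn
    by_cases ha0 : kd a = 0
    · exact Or.inl fun n _ hn => ha.free n a ha0 hn
    rcases hkd x a e1 hx0 ha0 with ⟨h2, h3⟩ | ⟨h2, h3⟩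
    · by_cases hex : ∃ n : N, n ≠ 1 ∧ n • a = a
      · obtain ⟨n, hn, hna⟩ := hex
        exact Or.inr fun n' hn' => hfull a x n h3 h2 (X.symm _ _ e1) hn hna n' hn'
      · refine Or.inl fun n _ hn => ?_
        by_contra hne
        exact hex ⟨n, hne, hn⟩
    · refine Or.inr fun n hn => ?_
      have e2 : X.Edge x (n • a) := by
        have e3 := ha.inv.edge n _ _ e1
        rwa [hn] at e3
      exact fix_hyp hT ha h2 h3 e1 e2
  · intro x hx
    have h1 : q x = q o := by
      refine hR.base _ fun b hb hlt => ?_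
      obtain ⟨y, rfl, hy⟩ := lift_edge ha hq hb
      exact hx y hy hlt
    exact (hq.orb o x).1 h1.symm

private theorem edge_of_chain {V : Type} (Y : Cpx V) {x y : V} (hne : x ≠ y) :
    ∀ l : List V, l.IsChain Y.Near → l.head? = some x → l.getLast? = some y → ∃ b, Y.Edge x b := by
  intro l
  induction l with
  | nil => intro _ h; simp at h
  | cons a l ih =>
    intro hch h1 h2
    rw [List.head?_cons, Option.some_inj] at h1
    subst h1
    rcases l with _ | ⟨b, l⟩
    · rw [List.getLast?_singleton, Option.some_inj] at h2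
      exact absurd h2 hne
    · rw [List.isChain_cons_cons] at hch
      rw [List.getLast?_cons_cons] at h2
      rcases hch.1 with h3 | h3
      · exact ih hch.2 (by rw [List.head?_cons, h3]) h2
      · exact ⟨b, h3⟩

end Pool.Agent.H52.FR
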