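import Mathlib

/-!
# [H52 FR GR] forests with heights

`acyclic_of_height`: in a cycle take a vertex `x` of maximal height; its two neighbours on the cycle are different and (heights of adjacent vertices are different) both lower:
contradiction.  (For instance rotate the cycle to start at `x`: `Walk.IsCycle.rotate`, then `snd` and `penultimate` are different.)
`dist_ne`, `dist_unique`: in an acyclic graph the path between two vertices is unique (`SimpleGraph.IsAcyclic.path_unique` / `isAcyclic_iff_path_unique`).
If `x`, `y` are adjacent and reachable from `r`, the path from `r` to one of them is the path to the other one plus the edge `xy`; the length of the path is the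
distance (`Reachable.exists_path_of_dist`).  If `y`, `z` are neighbours of `x` closer to `r` then path to `y` plus `yx` and path to `z` plus `zx` are both paths from `r` to `x`.
`exists_closer`: the last but one vertex of a shortest walk.
`exists_height`: choose a root in each connected component (`Quot.out`) and take the distance to it.
-/

set_option autoImplicit false

namespace Pool.Agent.H52.FR

variable {V : Type*}

theorem acyclic_of_height (G : SimpleGraph V) (h : V → ℕ) (h1 : ∀ x y, G.Adj x y → h x ≠ h y)
    (h2 : ∀ x y z, G.Adj x y → G.Adj x z → h y < h x → h z < h x → y = z) : G.IsAcyclic := by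
  intro v p hp
  obtain ⟨i, hi, hmax⟩ := Finset.exists_max_image (Finset.range (p.length + 1)) (fun i => h (p.getVert i))
    ⟨0, by simp⟩
  have hi' : i ≤ p.length := by
    have := Finset.mem_range.1 hi
    omega
  have hm : ∀ j, j ≤ p.length → h (p.getVert j) ≤ h (p.getVert i) := fun j hj =>
    hmax j (Finset.mem_range.2 (by omega))
  have h3 := hp.three_le_length
  have key : ∀ y z, G.Adj (p.getVert i) y → G.Adj (p.getVert i) z → h y ≤ h (p.getVert i) → h z ≤ h (p.getVert i) →
      y = z := fun y z hy hz h4 h5 =>
    h2 _ _ _ hy hz (lt_of_le_of_ne h4 (h1 _ _ hy).symm) (lt_of_le_of_ne h5 (h1 _ _ hz).symm)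
  by_cases h0 : i = 0 ∨ i = p.length
  · have hv : p.getVert i = v := by
      rcases h0 with rfl | rfl
      · exact p.getVert_zero
      · exact p.getVert_length
    apply hp.snd_ne_penultimate
    apply key
    · rw [hv]
      exact p.adj_snd hp.not_nil
    · rw [hv]
      exact (p.adj_penultimate hp.not_nil).symm
    · exact hm 1 (by omega)
    · exact hm (p.length - 1) (by omega)
  · push Not at h0
    have h4 := p.adj_getVert_succ (i := i) (by omega)
    have h5 := p.adj_getVert_succ (i := i - 1) (by omega)
    have e : i - 1 + 1 = i := by omega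
    rw [e] at h5
    exact hp.getVert_sub_one_ne_getVert_add_one hi' (key _ _ h5.symm h4 (hm _ (by omega)) (hm _ (by omega)))

theorem dist_ne {G : SimpleGraph V} (hG : G.IsAcyclic) {r x y : V} (h : G.Reachable r x) (hxy : G.Adj x y) :
    G.dist r x ≠ G.dist r y := by
  obtain ⟨p, hp, hpl⟩ := h.exists_path_of_dist
  obtain ⟨q, hq, hql⟩ := (h.trans hxy.reachable).exists_path_of_dist
  rw [← hpl, ← hql]
  by_cases hx : x ∈ q.support
  · rw [hG.path_concat hp hq hxy hx, SimpleGraph.Walk.length_concat]
    omega
  · have hy := hG.mem_support_of_ne_mem_support_of_adj_of_isPath hp hq hxy hx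
    rw [hG.path_concat hq hp hxy.symm hy, SimpleGraph.Walk.length_concat]
    omega

theorem dist_unique {G : SimpleGraph V} (hG : G.IsAcyclic) {r x y z : V} (h : G.Reachable r x) (hxy : G.Adj x y)
    (hxz : G.Adj x z) (hy : G.dist r y < G.dist r x) (hz : G.dist r z < G.dist r x) : y = z := by
  obtain ⟨p, hp, hpl⟩ := h.exists_path_of_dist
  have key : ∀ w, G.Adj x w → G.dist r w < G.dist r x → w = p.penultimate := by
    intro w hxw hw
    obtain ⟨q, hq, hql⟩ := (h.trans hxw.reachable).exists_path_of_dist
    refine hG.eq_penultimate_of_adj_end hp hxw ?_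
    refine hG.mem_support_of_ne_mem_support_of_adj_of_isPath hp hq hxw fun hx => ?_
    have h1 := congrArg SimpleGraph.Walk.length (hG.path_concat hp hq hxw hx)
    rw [SimpleGraph.Walk.length_concat] at h1
    omega
  rw [key y hxy hy, key z hxz hz]

theorem exists_closer {G : SimpleGraph V} {r x : V} (h : G.Reachable r x) (hx : x ≠ r) :
    ∃ y, G.Adj x y ∧ G.dist r y < G.dist r x := by
  obtain ⟨p, hp, hpl⟩ := h.exists_path_of_dist
  have hn : ¬ p.Nil := fun hh => hx hh.eq.symm
  refine ⟨p.penultimate, (p.adj_penultimate hn).symm, ?_⟩
  have h1 := SimpleGraph.dist_le p.dropLast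
  have h2 : p.dropLast.length + 1 = p.length := SimpleGraph.Walk.length_dropLast_add_one hn
  omega

theorem exists_height {G : SimpleGraph V} (hG : G.IsAcyclic) : ∃ h : V → ℕ, (∀ x y, G.Adj x y → h x ≠ h y) ∧
    ∀ x y z, G.Adj x y → G.Adj x z → h y < h x → h z < h x → y = z := by
  classical
  have hr : ∀ x, G.Reachable (G.connectedComponentMk x).out x := fun x =>
    SimpleGraph.ConnectedComponent.exact (Quot.out_eq (G.connectedComponentMk x))
  have he : ∀ x y, G.Adj x y → (G.connectedComponentMk y).out = (G.connectedComponentMk x).out := fun x y hxy =>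
    congrArg _ (SimpleGraph.ConnectedComponent.sound hxy.symm.reachable)
  refine ⟨fun x => G.dist (G.connectedComponentMk x).out x, fun x y hxy => ?_, fun x y z hxy hxz hy hz => ?_⟩
  · change G.dist (G.connectedComponentMk x).out x ≠ G.dist (G.connectedComponentMk y).out y
    rw [he x y hxy]
    exact dist_ne hG (hr x) hxy
  · change G.dist (G.connectedComponentMk y).out y < G.dist (G.connectedComponentMk x).out x at hy
    change G.dist (G.connectedComponentMk z).out z < G.dist (G.connectedComponentMk x).out x at hz
    rw [he x y hxy] at hy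
    rw [he x z hxz] at hz
    exact dist_unique hG (hr x) hxy hxz hy hz

/-- a cycle gives a bi-infinite reduced path, in particular a sequence -/
theorem exists_seq {G : SimpleGraph V} (hG : ¬ G.IsAcyclic) : ∃ s : ℕ → V, (∀ i, G.Adj (s i) (s (i + 1))) ∧
    ∀ i, s i ≠ s (i + 2) := by
  unfold SimpleGraph.IsAcyclic at hG
  push Not at hG
  obtain ⟨v, p, hp⟩ := hG
  have h3 := hp.three_le_length
  refine ⟨fun i => p.getVert (i % p.length), fun i => ?_, fun i => ?_⟩
  · change G.Adj (p.getVert (i % p.length)) (p.getVert ((i + 1) % p.length))
    have h4 : i % p.length < p.length := Nat.mod_lt _ (by omega)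
    have h5 := p.adj_getVert_succ h4
    by_cases h6 : i % p.length + 1 = p.length
    · have h7 : (i + 1) % p.length = 0 := by
        rw [Nat.add_mod, Nat.mod_eq_of_lt (show 1 < p.length by omega), h6, Nat.mod_self]
      rw [h7, p.getVert_zero]
      rw [h6, p.getVert_length] at h5
      exact h5
    · have h7 : (i + 1) % p.length = i % p.length + 1 := by
        rw [Nat.add_mod, Nat.mod_eq_of_lt (show 1 < p.length by omega), Nat.mod_eq_of_lt (by omega)]
      rw [h7]
      exact h5
  · change p.getVert (i % p.length) ≠ p.getVert ((i + 2) % p.length)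
    intro h4
    have h5 : i % p.length < p.length := Nat.mod_lt _ (by omega)
    have h6 : (i + 2) % p.length < p.length := Nat.mod_lt _ (by omega)
    have h7 := hp.getVert_injOn' (Set.mem_ofPred_eq ▸ (show i % p.length ≤ p.length - 1 by omega))
      (Set.mem_ofPred_eq ▸ (show (i + 2) % p.length ≤ p.length - 1 by omega)) h4
    have h8 : (i + 2) % p.length = (i % p.length + 2) % p.length := by
      rw [Nat.add_mod, Nat.mod_eq_of_lt (show 2 < p.length by omega)]
    rw [h8] at h7
    generalize i % p.length = r at h5 h7
    generalize p.length = n at h3 h5 h7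
    rcases lt_or_ge (r + 2) n with h9 | h9
    · rw [Nat.mod_eq_of_lt h9] at h7
      omega
    · have h10 : (r + 2) % n = r + 2 - n := by
        rw [Nat.mod_eq_sub_mod h9, Nat.mod_eq_of_lt (by omega)]
      omega

end Pool.Agent.H52.FR
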