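import Pool.Agent.H52.FR.Def

/-!
# [H52 FR BAS] basic facts on typed complexes

All statements are short consequences of the fields of `TC` (`Pool/Agent/H59/DE/Defs.lean`) and of `Cpx` (`edge`, `rot`, `swap`, `symm`).
`AdjH.ty2`: `τ a ≠ τ b`, `τ b ≠ τ c` (`AdjH.ty`) and `bip` for `a b c`.  `no3`: `ty2` for `a b c` gives `τ a = τ c`, but `AdjH c a`.
`no5`: `τ a = τ c = τ e`, but `AdjH e a`.
-/

set_option autoImplicit false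

namespace Pool.Agent.H52.FR

open Pool.Agent.H54.CX Pool.Agent.H59.DE

variable {U T : Type} {Y : Cpx U} {kd : U → ℕ} {τ : U → T}

theorem T3.ge {g e p : U} (h : T3 Y kd g e p) : Y.Edge g e := by
  exact Y.edge _ _ _ h.2.2.2

theorem T3.ep {g e p : U} (h : T3 Y kd g e p) : Y.Edge e p := by
  exact Y.edge _ _ _ (Y.rot _ _ _ h.2.2.2)

theorem T3.gp {g e p : U} (h : T3 Y kd g e p) : Y.Edge g p := by
  exact Y.symm _ _ (Y.edge _ _ _ (Y.rot _ _ _ (Y.rot _ _ _ h.2.2.2)))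

/-- the kinds of the vertices of a triangle -/
theorem tri_kinds (hT : TC Y kd τ) {a b c : U} (h : Y.Tri a b c) :
    T3 Y kd a b c ∨ T3 Y kd a c b ∨ T3 Y kd b a c ∨ T3 Y kd b c a ∨ T3 Y kd c a b ∨ T3 Y kd c b a := by
  have ha := hT.kd_le a
  have hb := hT.kd_le b
  have hc := hT.kd_le c
  have hab := hT.kd_ne _ _ (Y.edge _ _ _ h)
  have h1 := Y.rot _ _ _ h
  have h2 := Y.rot _ _ _ h1
  have hbc := hT.kd_ne _ _ (Y.edge _ _ _ h1)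
  have hca := hT.kd_ne _ _ (Y.edge _ _ _ h2)
  have h3 := Y.swap _ _ _ h
  have h4 := Y.rot _ _ _ h3
  have h5 := Y.rot _ _ _ h4
  have key : (kd a = 0 ∧ kd b = 1 ∧ kd c = 2) ∨ (kd a = 0 ∧ kd c = 1 ∧ kd b = 2) ∨
      (kd b = 0 ∧ kd a = 1 ∧ kd c = 2) ∨ (kd b = 0 ∧ kd c = 1 ∧ kd a = 2) ∨
      (kd c = 0 ∧ kd a = 1 ∧ kd b = 2) ∨ (kd c = 0 ∧ kd b = 1 ∧ kd a = 2) := by
    omega
  rcases key with k | k | k | k | k | k
  · exact Or.inl ⟨k.1, k.2.1, k.2.2, h⟩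
  · exact Or.inr (Or.inl ⟨k.1, k.2.1, k.2.2, h4⟩)
  · exact Or.inr (Or.inr (Or.inl ⟨k.1, k.2.1, k.2.2, h3⟩))
  · exact Or.inr (Or.inr (Or.inr (Or.inl ⟨k.1, k.2.1, k.2.2, h1⟩)))
  · exact Or.inr (Or.inr (Or.inr (Or.inr (Or.inl ⟨k.1, k.2.1, k.2.2, h2⟩))))
  · exact Or.inr (Or.inr (Or.inr (Or.inr (Or.inr ⟨k.1, k.2.1, k.2.2, h5⟩))))

theorem t3_of (hT : TC Y kd τ) {g e p : U} (hg : kd g = 0) (he : kd e = 1) (hp : kd p = 2) (h1 : Y.Edge g e)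
    (h2 : Y.Edge e p) : T3 Y kd g e p := by
  exact ⟨hg, he, hp, hT.fill g e p hg he hp h1 h2⟩

theorem cell_of (hT : TC Y kd τ) {e p : U} (he : kd e = 1) (hp : kd p = 2) (h : Y.Edge e p) :
    ∃ g, T3 Y kd g e p := by
  obtain ⟨g, hg, h1⟩ := hT.cell e p he hp h
  exact ⟨g, t3_of hT hg he hp h1 h⟩

theorem two_of (hT : TC Y kd τ) {g p : U} (hg : kd g = 0) (hp : kd p = 2) (h : Y.Edge g p) :
    ∃ e e', e ≠ e' ∧ T3 Y kd g e p ∧ T3 Y kd g e' p ∧ ∀ x, T3 Y kd g x p → x = e ∨ x = e' := by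
  obtain ⟨e, e', hne, he, he', h1, h2, h3⟩ := hT.two g p hg hp h
  exact ⟨e, e', hne, ⟨hg, he, hp, h1⟩, ⟨hg, he', hp, h2⟩, fun x hx => h3 x hx.2.2.2⟩

/-- three hyperedges of a cell at a point: two of them are equal -/
theorem two_eq (hT : TC Y kd τ) {g p a b c : U} (ha : T3 Y kd g a p) (hb : T3 Y kd g b p) (hc : T3 Y kd g c p) :
    a = b ∨ b = c ∨ a = c := by
  obtain ⟨e, e', _, _, _, h3⟩ := two_of hT ha.1 ha.2.2.1 ha.gp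
  rcases h3 a ha with h | h <;> rcases h3 b hb with h' | h' <;> rcases h3 c hc with h'' | h''
  · exact Or.inl (h.trans h'.symm)
  · exact Or.inl (h.trans h'.symm)
  · exact Or.inr (Or.inr (h.trans h''.symm))
  · exact Or.inr (Or.inl (h'.trans h''.symm))
  · exact Or.inr (Or.inl (h'.trans h''.symm))
  · exact Or.inr (Or.inr (h.trans h''.symm))
  · exact Or.inl (h.trans h'.symm)
  · exact Or.inl (h.trans h'.symm)

theorem lg_of (hT : TC Y kd τ) {g e e' p q : U} (h1 : T3 Y kd g e p) (h2 : T3 Y kd g e' p) (h3 : T3 Y kd g e q)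
    (h4 : T3 Y kd g e' q) (h : e ≠ e') : p = q := by
  exact hT.lg g e e' p q h1.1 h1.2.1 h2.2.1 h1.2.2.1 h3.2.2.1 h h1.2.2.2 h2.2.2.2 h3.2.2.2 h4.2.2.2

theorem l2_of (hT : TC Y kd τ) {g g' e e' p : U} (h1 : T3 Y kd g e p) (h2 : T3 Y kd g e' p) (h3 : T3 Y kd g' e p)
    (h4 : T3 Y kd g' e' p) (h : e ≠ e') : g = g' := by
  exact hT.l2 p e e' g g' h1.2.2.1 h1.2.1 h2.2.1 h1.1 h3.1 h h1.2.2.2 h2.2.2.2 h3.2.2.2 h4.2.2.2

theorem AdjH.symm {p a b : U} (h : AdjH Y kd p a b) : AdjH Y kd p b a := by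
  obtain ⟨hne, g, h1, h2⟩ := h
  exact ⟨hne.symm, g, h2, h1⟩

theorem Far.symm {p a b : U} (h : Far Y kd p a b) : Far Y kd p b a := by
  obtain ⟨hne, h1, h2⟩ := h
  exact ⟨hne.symm, fun h3 => h1 h3.symm, fun x hx hx' => h2 x hx'.symm hx.symm⟩

theorem AdjH.ty (hT : TC Y kd τ) {p a b : U} (h : AdjH Y kd p a b) : τ a ≠ τ b := by
  obtain ⟨hne, g, h1, h2⟩ := h
  exact fun h3 => hne (hT.inj g a b h1.1 h1.ge h2.ge h3)

theorem AdjH.ty2 (hT : TC Y kd τ) {p a b c : U} (h : AdjH Y kd p a b) (h' : AdjH Y kd p b c) : τ a = τ c := by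
  have n1 := h.ty hT
  have n2 := h'.ty hT
  obtain ⟨_, g, h1, h2⟩ := h
  obtain ⟨_, g', h3, h4⟩ := h'
  rcases hT.bip p a b c h1.2.2.1 h1.2.1 h2.2.1 h4.2.1 h1.ep h2.ep h4.ep with k | k | k
  · exact absurd k n1
  · exact absurd k n2
  · exact k

theorem no3 (hT : TC Y kd τ) {p a b c : U} (h1 : AdjH Y kd p a b) (h2 : AdjH Y kd p b c) (h3 : AdjH Y kd p c a) :
    False := by
  exact (h3.symm.ty hT) (h1.ty2 hT h2)

theorem no4 (hT : TC Y kd τ) {p a b c d : U} (h1 : AdjH Y kd p a b) (h2 : AdjH Y kd p b c) (h3 : AdjH Y kd p c d)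
    (h4 : AdjH Y kd p d a) : a = c ∨ b = d := by
  obtain ⟨n1, g₁, a1, a2⟩ := h1
  obtain ⟨n2, g₂, b1, b2⟩ := h2
  obtain ⟨n3, g₃, c1, c2⟩ := h3
  obtain ⟨n4, g₄, d1, d2⟩ := h4
  exact hT.l4 p a b c d g₁ g₂ g₃ g₄ a1.2.2.1 a1.2.1 a2.2.1 b2.2.1 c2.2.1 a1.1 b1.1 c1.1 d1.1 a1.2.2.2 a2.2.2.2
    b1.2.2.2 b2.2.2.2 c1.2.2.2 c2.2.2.2 d1.2.2.2 d2.2.2.2 n1 n2 n3 n4

theorem no5 (hT : TC Y kd τ) {p a b c d e : U} (h1 : AdjH Y kd p a b) (h2 : AdjH Y kd p b c) (h3 : AdjH Y kd p c d)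
    (h4 : AdjH Y kd p d e) (h5 : AdjH Y kd p e a) : False := by
  exact (h5.ty hT) ((h1.ty2 hT h2).trans (h3.ty2 hT h4)).symm

end Pool.Agent.H52.FR
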