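import Pool.Agent.H52.FR.Ge

/-!
# [H52 FR CEL] the lowest points of a cell

Let `n = ml g`, `q` a point of `g` of level `n`.  If it is the only one, the other points of `g` have level `n + 1` (`lev_le`, `ml_le`).
`pair_tyI`: let `p ≠ q` be points of `g` of level `n`.  `Lv.ld` gives a cell `c'` with points `p`, `q`, `r`, `lev r + 1 = n`; `c' ≠ g` because `r` is not a point of `g`;
so a common hyperedge `e` of `g`, `c'` contains `p`, `q` (`share`).  It is of type I by `not_tyI`: otherwise one of `p`, `q` would have level `ml e + 1`, so `ml e < n`, but all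
points of `e` are points of `g`.
`cell_cases`: let `e` be the hyperedge of `pair_tyI`; if `s` is a further point of `g` of level `n` which is not in `e`, then `pair_tyI` for `p`, `s`
gives `e' ∋ p, s` of type I with `ml e' = n` (the level of `p`), `e' ≠ e`, contradiction to `two_tyI`.
-/

set_option autoImplicit false

namespace Pool.Agent.H52.FR

open Pool.Agent.H54.CX Pool.Agent.H59.DE

variable {U T : Type} {Y : Cpx U} {kd : U → ℕ} {τ : U → T} {lev : U → ℕ} {o : U}

theorem pair_tyI (hT : TC Y kd τ) (hL : Lv Y kd lev o) {g p q : U} (hg : kd g = 0) (hp : kd p = 2) (hq : kd q = 2)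
    (h1 : Y.Edge g p) (h2 : Y.Edge g q) (hpq : p ≠ q) (h3 : lev p = ml Y kd lev g) (h4 : lev q = ml Y kd lev g) :
    ∃ e, TyI Y kd lev e ∧ ml Y kd lev e = ml Y kd lev g ∧ T3 Y kd g e p ∧ T3 Y kd g e q := by
  obtain ⟨c, r, hc, hr, hcp, hcq, hcr, hl⟩ :=
    hL.ld g p q hg hp hq h1 h2 hpq (h3.trans h4.symm)
  have hne : g ≠ c := by
    rintro rfl
    have := ml_le (Y := Y) (lev := lev) hr hcr
    omega
  obtain ⟨e, e1, e2, e3, e4⟩ := share hT hL hg hc hp hq hpq h1 h2 hcp hcq hne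
  have heI : TyI Y kd lev e := by
    by_contra hI
    obtain ⟨q0, hq0, heq0, hlq0, hall⟩ := not_tyI hT hL e1.2.1 hI hp e1.ep
    have hlp : lev p = ml Y kd lev e + 1 := by
      by_cases hpq0 : p = q0
      · have hqq0 : q ≠ q0 := fun h => hpq (hpq0.trans h.symm)
        have := hall q hq e2.ep hqq0
        omega
      · exact hall p hp e1.ep hpq0
    have hgq0 : Y.Edge g q0 := (t3_of hT hg e1.2.1 hq0 e1.ge heq0).gp
    have := ml_le (Y := Y) (lev := lev) hq0 hgq0
    omega
  refine ⟨e, heI, ?_, e1, e2⟩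
  have := heI.2 p hp e1.ep
  omega

theorem cell_cases (hT : TC Y kd τ) (hL : Lv Y kd lev o) {g : U} (hg : kd g = 0) (h : ∃ p, kd p = 2 ∧ Y.Edge g p) :
    (∃ q, kd q = 2 ∧ Y.Edge g q ∧ lev q = ml Y kd lev g ∧
      ∀ p, kd p = 2 → Y.Edge g p → p ≠ q → lev p = ml Y kd lev g + 1) ∨
    ∃ e, TyI Y kd lev e ∧ Y.Edge g e ∧ ml Y kd lev e = ml Y kd lev g ∧
      ∀ p, kd p = 2 → Y.Edge g p → (lev p = ml Y kd lev g ↔ Y.Edge e p) := by
  obtain ⟨q, hq, hgq, hlq⟩ := exists_ml (Y := Y) (lev := lev) h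
  by_cases hu : ∀ p, kd p = 2 → Y.Edge g p → p ≠ q → lev p ≠ ml Y kd lev g
  · left
    refine ⟨q, hq, hgq, hlq, fun p hp hgp hpq => ?_⟩
    have h1 := hu p hp hgp hpq
    have h2 := ml_le (Y := Y) (lev := lev) hp hgp
    have h3 := lev_le hT hL (Or.inl hg) hp hgp
    omega
  · right
    push Not at hu
    obtain ⟨p, hp, hgp, hpq, hlp⟩ := hu
    obtain ⟨e, he, hme, e1, e2⟩ := pair_tyI hT hL hg hp hq hgp hgq hpq hlp hlq
    refine ⟨e, he, e1.ge, hme, fun s hs hgs => ⟨fun hls => ?_, fun hes => ?_⟩⟩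
    · by_contra hns
      have hps : p ≠ s := by
        rintro rfl
        exact hns e1.ep
      obtain ⟨e', he', hme', f1, f2⟩ := pair_tyI hT hL hg hp hs hgp hgs hps hlp hls
      have := two_tyI hT hL he he' e1 f1 hme hme'
      subst this
      exact hns f2.ep
    · rw [he.2 s hs hes, hme]

end Pool.Agent.H52.FR
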