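import Pool.Agent.H59.DE.Defs
import Pool.Agent.H59.DE.Sh

/-!
# Rank and rooted descending links of a typed complex with levels: definitions

`Y` is a typed complex (`TC`) with levels of the points (`Lv`).
-/

set_option autoImplicit false

namespace Pool.Agent.H52.FR

open Pool.Agent.H54.CX Pool.Agent.H59.DE

variable {U T : Type} (Y : Cpx U) (kd : U → ℕ) (lev : U → ℕ) (FX : U → Prop)

/-- a triangle: the cell `g`, the hyperedge `e`, the point `p` -/
def T3 (g e p : U) : Prop := kd g = 0 ∧ kd e = 1 ∧ kd p = 2 ∧ Y.Tri g e p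

/-- the hyperedges `e ≠ e'` at the point `p` are in a common cell at `p` -/
def AdjH (p e e' : U) : Prop := e ≠ e' ∧ ∃ g, T3 Y kd g e p ∧ T3 Y kd g e' p

/-- the distance of `e` and `e'` in the link of `p` is at least three -/
def Far (p e e' : U) : Prop := e ≠ e' ∧ ¬ AdjH Y kd p e e' ∧ ∀ a, AdjH Y kd p e a → ¬ AdjH Y kd p a e'

/-- the smallest level of the points of the cell or hyperedge `x` -/
noncomputable def ml (x : U) : ℕ := sInf {n | ∃ p, kd p = 2 ∧ Y.Edge x p ∧ lev p = n}

/-- hyperedges of type I: all points have the same level -/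
def TyI (e : U) : Prop := kd e = 1 ∧ ∀ p, kd p = 2 → Y.Edge e p → lev p = ml Y kd lev e

/-- the hyperedge `a` contains the point `p` and a point of the level below -/
def Used (p a : U) : Prop := kd a = 1 ∧ Y.Edge a p ∧ ∃ q, kd q = 2 ∧ Y.Edge a q ∧ lev q + 1 = lev p

/-- the cell `g` contains the point `p` and all neighbours of `p` of the level below -/
def IsG0 (p g : U) : Prop := kd g = 0 ∧ Y.Edge g p ∧
  ∀ c q, kd c = 0 → kd q = 2 → Y.Edge c p → Y.Edge c q → lev q + 1 = lev p → Y.Edge g q

/-- the properties of the set `FX` of the points and hyperedges with nontrivial stabiliser -/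
structure FixP : Prop where
  pt : ∀ e p, kd e = 1 → kd p = 2 → Y.Edge e p → FX e → FX p
  far : ∀ e e' p, kd e = 1 → kd e' = 1 → kd p = 2 → Y.Edge e p → Y.Edge e' p → FX e → FX e' → e ≠ e' →
    Far Y kd p e e'

end Pool.Agent.H52.FR
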