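import Pool.Agent.H52.FR.Dlk

/-!
# [H52 FR DLC] the descending link of a cell

`R = rk ..`.  Let `g` be a cell, `n = ml g`.  Lower points: `lev p = n` (`rk_pt_cell`); lower hyperedges: `ml e = n` (`rk_hyp_cell`).  Edges join a hyperedge with one of its points.
`cell_cases`.  (1) Unique lowest point `q`: every lower hyperedge contains a point of level `n`, so it contains `q`; height: `0` for points, `1` for hyperedges; the lower neighbour of a
hyperedge is `q`; connected through `q`.  (2) `e` of type I contains exactly the points of level `n`.  Height: `h e = 0`, points `1`, other hyperedges `2`.  Lower neighbour of a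
point: `e`.  Lower neighbours of a hyperedge `a ≠ e`: points of level `n` in `a`, they are in `e`; two different ones contradict `lg_of`.  Connected through `e`: a lower hyperedge contains a point
of level `n` (`exists_ml`), which is in `e`.
There are no critical vertices (`kd g = 0`).
`down_cell`: a point of level `ml g` (`cell_pt`, `exists_ml`).
-/

set_option autoImplicit false

namespace Pool.Agent.H52.FR

open Pool.Agent.H54.CX Pool.Agent.H59.DE

variable {U T : Type} {Y : Cpx U} {kd : U → ℕ} {τ : U → T} {lev : U → ℕ} {o : U} {FX : U → Prop} {dst : U → ℕ}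

/-- the edges of the descending link of a cell join a hyperedge with one of its points -/
private theorem dg_cell (hT : TC Y kd τ) (hL : Lv Y kd lev o) {g : U} (hg : kd g = 0) {y z : U}
    (h : (DG Y (rk Y kd lev FX dst) g).Adj y z) :
    (T3 Y kd g y z ∧ ml Y kd lev y = ml Y kd lev g ∧ lev z = ml Y kd lev g) ∨
      (T3 Y kd g z y ∧ ml Y kd lev z = ml Y kd lev g ∧ lev y = ml Y kd lev g) := by
  obtain ⟨h1, h2, h3⟩ := h
  rcases tri_kinds hT h1 with h | h | h | h | h | h
  · exact Or.inl ⟨h, (rk_hyp_cell hT hL hg h.2.1 h.ge).1 h2, (rk_pt_cell hT hL hg h.2.2.1 h.gp).1 h3⟩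
  · exact Or.inr ⟨h, (rk_hyp_cell hT hL hg h.2.1 h.ge).1 h3, (rk_pt_cell hT hL hg h.2.2.1 h.gp).1 h2⟩
  · exact absurd h.2.1 (by omega)
  · exact absurd h.2.2.1 (by omega)
  · exact absurd h.2.1 (by omega)
  · exact absurd h.2.2.1 (by omega)

private theorem dg_cell_mk (hT : TC Y kd τ) (hL : Lv Y kd lev o) {g : U} (hg : kd g = 0) {y z : U}
    (h : T3 Y kd g y z) (h1 : ml Y kd lev y = ml Y kd lev g) (h2 : lev z = ml Y kd lev g) :
    (DG Y (rk Y kd lev FX dst) g).Adj y z :=
  ⟨h.2.2.2, (rk_hyp_cell hT hL hg h.2.1 h.ge).2 h1, (rk_pt_cell hT hL hg h.2.2.1 h.gp).2 h2⟩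

private theorem no_crit {g y : U} (hg : kd g = 0) (h : Crit kd FX g y) : False := by
  rcases h with h | h <;> omega

/-- a lower vertex is a point of the level `ml g` or a hyperedge with a point of this level -/
private theorem dv_cell (hT : TC Y kd τ) (hL : Lv Y kd lev o) {g : U} (hg : kd g = 0) {y : U}
    (h : DV Y (rk Y kd lev FX dst) g y) :
    (kd y = 2 ∧ Y.Edge g y ∧ lev y = ml Y kd lev g) ∨
      ∃ p, T3 Y kd g y p ∧ ml Y kd lev y = ml Y kd lev g ∧ lev p = ml Y kd lev g := by
  obtain ⟨h1, h2⟩ := h
  have hk : kd y = 1 ∨ kd y = 2 := by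
    have h3 := hT.kd_le y
    have h4 := hT.kd_ne g y h1
    omega
  rcases hk with hk | hk
  · right
    have h3 := (rk_hyp_cell hT hL hg hk h1).1 h2
    obtain ⟨p, q, -, hp, -, h4, -⟩ := hT.pts g y hg hk h1
    have h5 : T3 Y kd g y p := ⟨hg, hk, hp, h4⟩
    obtain ⟨r, hr, hyr, hrl⟩ := exists_ml (Y := Y) (kd := kd) (lev := lev) (x := y) ⟨p, hp, h5.ep⟩
    exact ⟨r, t3_of hT hg hk hr h1 hyr, h3, by rw [hrl, h3]⟩
  · exact Or.inl ⟨hk, h1, (rk_pt_cell hT hL hg hk h1).1 h2⟩

theorem good_cell (hT : TC Y kd τ) (hL : Lv Y kd lev o) {g : U}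
    (hg : kd g = 0) : Good Y kd (rk Y kd lev FX dst) FX g := by
  classical
  by_cases hex : ∃ p, kd p = 2 ∧ Y.Edge g p
  · rcases cell_cases hT hL hg hex with ⟨q, hq, hgq, hql, hu⟩ | ⟨e, he, hge, hel, hu⟩
    · -- a unique lowest point
      have key : ∀ p, kd p = 2 → Y.Edge g p → lev p = ml Y kd lev g → p = q := by
        intro p hp hgp hl
        by_contra hne
        have := hu p hp hgp hne
        omega
      have toq : ∀ y, DV Y (rk Y kd lev FX dst) g y → (DG Y (rk Y kd lev FX dst) g).Reachable y q := by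
        intro y hy
        rcases dv_cell hT hL hg hy with ⟨h1, h2, h3⟩ | ⟨p, h1, h2, h3⟩
        · rw [key y h1 h2 h3]
        · have h4 := key p h1.2.2.1 h1.gp h3
          subst h4
          exact (dg_cell_mk hT hL hg h1 h2 h3).reachable
      refine ⟨?_, fun y z hy hz => (toq y hy).trans (toq z hz).symm, fun y z _ _ hy _ => (no_crit hg hy).elim⟩
      refine acyclic_of_height _ (fun x => if kd x = 2 then 0 else 1) ?_ ?_
      · intro x y h
        rcases dg_cell hT hL hg h with ⟨h1, -, -⟩ | ⟨h1, -, -⟩
        · have h2 := h1.2.1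
          have h3 := h1.2.2.1
          show (if kd x = 2 then 0 else 1) ≠ (if kd y = 2 then 0 else 1)
          rw [if_pos h3, if_neg (by omega)]
          exact one_ne_zero
        · have h2 := h1.2.1
          have h3 := h1.2.2.1
          show (if kd x = 2 then 0 else 1) ≠ (if kd y = 2 then 0 else 1)
          rw [if_pos h3, if_neg (by omega)]
          exact zero_ne_one
      · have aux : ∀ x y, (DG Y (rk Y kd lev FX dst) g).Adj x y →
            (if kd y = 2 then 0 else 1) < (if kd x = 2 then 0 else 1) → y = q := by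
          intro x y h hlt
          rcases dg_cell hT hL hg h with ⟨h1, -, h3⟩ | ⟨h1, -, h3⟩
          · exact key y h1.2.2.1 h1.gp h3
          · rw [if_pos h1.2.2.1] at hlt
            omega
        intro x y z hxy hxz hy hz
        rw [aux x y hxy hy, aux x z hxz hz]
    · -- a hyperedge of type I contains the lowest points
      have toe : ∀ y, DV Y (rk Y kd lev FX dst) g y → (DG Y (rk Y kd lev FX dst) g).Reachable y e := by
        intro y hy
        rcases dv_cell hT hL hg hy with ⟨h1, h2, h3⟩ | ⟨p, h1, h2, h3⟩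
        · have h4 : T3 Y kd g e y := t3_of hT hg he.1 h1 hge ((hu y h1 h2).1 h3)
          exact (dg_cell_mk hT hL hg h4 hel h3).reachable.symm
        · have h4 : T3 Y kd g e p := t3_of hT hg he.1 h1.2.2.1 hge ((hu p h1.2.2.1 h1.gp).1 h3)
          exact (dg_cell_mk hT hL hg h1 h2 h3).reachable.trans (dg_cell_mk hT hL hg h4 hel h3).reachable.symm
      refine ⟨?_, fun y z hy hz => (toe y hy).trans (toe z hz).symm, fun y z _ _ hy _ => (no_crit hg hy).elim⟩
      have hke : kd e = 1 := he.1
      obtain ⟨ht, hht⟩ : ∃ ht : U → ℕ, ∀ x, ht x = if x = e then 0 else if kd x = 2 then 1 else 2 :=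
        ⟨_, fun x => rfl⟩
      have h2 : ∀ x, kd x = 2 → ht x = 1 := by
        intro x hx
        rw [hht, if_neg (by rintro rfl; omega), if_pos hx]
      have h1 : ∀ x, kd x = 1 → x ≠ e → ht x = 2 := by
        intro x hx hne
        rw [hht, if_neg hne, if_neg (by omega)]
      have h0 : ht e = 0 := by rw [hht, if_pos rfl]
      refine acyclic_of_height _ ht ?_ ?_
      · intro x y h
        rcases dg_cell hT hL hg h with ⟨h3, -, -⟩ | ⟨h3, -, -⟩
        · rw [h2 y h3.2.2.1]
          by_cases hx : x = e
          · rw [hx, h0]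
            omega
          · rw [h1 x h3.2.1 hx]
            omega
        · rw [h2 x h3.2.2.1]
          by_cases hy : y = e
          · rw [hy, h0]
            omega
          · rw [h1 y h3.2.1 hy]
            omega
      · intro x y z hxy hxz hy hz
        rcases dg_cell hT hL hg hxy with ⟨h3, -, h4⟩ | ⟨h3, -, -⟩
        · -- `x` is a hyperedge
          rcases dg_cell hT hL hg hxz with ⟨h5, -, h6⟩ | ⟨h5, -, -⟩
          · by_cases hx : x = e
            · rw [hx, h0] at hy
              omega
            · have h7 : T3 Y kd g e y := t3_of hT hg hke h3.2.2.1 hge ((hu y h3.2.2.1 h3.gp).1 h4)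
              have h8 : T3 Y kd g e z := t3_of hT hg hke h5.2.2.1 hge ((hu z h5.2.2.1 h5.gp).1 h6)
              exact lg_of hT h3 h7 h5 h8 hx
          · have := h3.2.1
            have := h5.2.2.1
            omega
        · -- `x` is a point
          have hx := h3.2.2.1
          have aux : ∀ y, (DG Y (rk Y kd lev FX dst) g).Adj x y → ht y < ht x → y = e := by
            intro y hxy hy
            by_contra hne
            rcases dg_cell hT hL hg hxy with ⟨h5, -, -⟩ | ⟨h5, -, -⟩
            · have := h5.2.1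
              omega
            · rw [h1 y h5.2.1 hne, h2 x hx] at hy
              omega
          rw [aux y hxy hy, aux z hxz hz]
  · -- no neighbours
    have hno : ∀ x, ¬ Y.Edge g x := fun x hx => hex (cell_pt hT hg hx)
    refine ⟨?_, fun y z hy _ => (hno y hy.1).elim, fun y z _ _ hy _ => (no_crit hg hy).elim⟩
    refine acyclic_of_height _ (fun _ => 0) ?_ ?_
    · intro x y h
      exact (hno x (Y.edge _ _ _ h.1)).elim
    · intro x y z h
      exact (hno x (Y.edge _ _ _ h.1)).elim

theorem down_cell (hT : TC Y kd τ) (hL : Lv Y kd lev o) {g x : U} (hg : kd g = 0) (hx : Y.Edge g x) :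
    ∃ y, DV Y (rk Y kd lev FX dst) g y := by
  obtain ⟨p, hp, hgp, hl⟩ := exists_ml (lev := lev) (cell_pt hT hg hx)
  exact ⟨p, hgp, (rk_pt_cell hT hL hg hp hgp).2 hl⟩

end Pool.Agent.H52.FR
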