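import Pool.Agent.H52.FR.Dlk

/-!
# [H52 FR DLH] the descending link of a hyperedge

`R = rk ..`.  Let `e` be a hyperedge.
Not of type I: cells are not lower (`rk_cell_hyp`, `ml_hyp`); lower points are those with `lev p = ml e` (`rk_pt_hyp`), there is exactly one (`not_tyI`).  So the link is one vertex
and no edges (an edge would join a cell and a point, `tri_kinds`).
Type I: the only lower cell is the lower cell `g` of `e` (`rk_cell_hyp`, `ge_unique`); points are lower iff `e` is fixed and `dst p < dst e`, there is at most one (`Hgt.pt`).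
Every point of `e` is adjacent to `g` (`t3_of`).  So there are at most two vertices; acyclic: height `0` for cells and `1` for the others.
Critical vertices are points: unique in both cases.
`down_hyp`: the lowest point, or `ge_exists`.
-/

set_option autoImplicit false

namespace Pool.Agent.H52.FR

open Pool.Agent.H54.CX Pool.Agent.H59.DE

variable {U T : Type} {Y : Cpx U} {kd : U → ℕ} {τ : U → T} {lev : U → ℕ} {o : U} {FX : U → Prop} {dst : U → ℕ}

theorem good_hyp (hT : TC Y kd τ) (hL : Lv Y kd lev o) (hd : Hgt Y kd lev FX dst) {e : U}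
    (he : kd e = 1) : Good Y kd (rk Y kd lev FX dst) FX e := by
  -- the kinds of the neighbours
  have hk : ∀ y, Y.Edge e y → kd y = 0 ∨ kd y = 2 := by
    intro y hy
    have h1 := hT.kd_le y
    have h2 := hT.kd_ne e y hy
    omega
  -- there is at most one lower cell
  have uc : ∀ y z, DV Y (rk Y kd lev FX dst) e y → DV Y (rk Y kd lev FX dst) e z → kd y = 0 → kd z = 0 → y = z := by
    intro y z hy hz ky kz
    have h1 := (rk_cell_hyp hT hL ky he (Y.symm _ _ hy.1)).1 hy.2
    have h2 := (rk_cell_hyp hT hL kz he (Y.symm _ _ hz.1)).1 hz.2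
    have h3 : TyI Y kd lev e := by
      rcases ml_hyp hT hL ky he (Y.symm _ _ hy.1) with h4 | h4
      · omega
      · exact h4.2
    exact ge_unique hT hL h3 ky (Y.symm _ _ hy.1) h1 kz (Y.symm _ _ hz.1) h2
  -- there is at most one lower point
  have up : ∀ y z, DV Y (rk Y kd lev FX dst) e y → DV Y (rk Y kd lev FX dst) e z → kd y = 2 → kd z = 2 → y = z := by
    intro y z hy hz ky kz
    have h1 := (rk_pt_hyp hT hL he ky hy.1).1 hy.2
    have h2 := (rk_pt_hyp hT hL he kz hz.1).1 hz.2
    by_cases ht : TyI Y kd lev e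
    · rcases h1 with h1 | h1
      · exact absurd ht h1.1
      · rcases h2 with h2 | h2
        · exact absurd ht h2.1
        · exact hd.pt e y z ⟨ht, h1.2.1, ky, hy.1⟩ ⟨ht, h2.2.1, kz, hz.1⟩ h1.2.2 h2.2.2
    · rcases h1 with h1 | h1
      · rcases h2 with h2 | h2
        · obtain ⟨q, -, -, -, hq⟩ := not_tyI hT hL he ht ky hy.1
          have e1 : y = q := by
            by_contra hne
            have := hq y ky hy.1 hne
            omega
          have e2 : z = q := by
            by_contra hne
            have := hq z kz hz.1 hne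
            omega
          rw [e1, e2]
        · exact absurd h2.1 ht
      · exact absurd h1.1 ht
  -- the cell and the point are adjacent
  have adj : ∀ y z, DV Y (rk Y kd lev FX dst) e y → DV Y (rk Y kd lev FX dst) e z → kd y = 0 → kd z = 2 →
      (DG Y (rk Y kd lev FX dst) e).Adj y z := by
    intro y z hy hz ky kz
    have h1 := (t3_of hT ky he kz (Y.symm _ _ hy.1) hz.1).2.2.2
    exact ⟨Y.swap _ _ _ h1, hy.2, hz.2⟩
  have hdv : ∀ y z, (DG Y (rk Y kd lev FX dst) e).Adj y z →
      DV Y (rk Y kd lev FX dst) e y ∧ DV Y (rk Y kd lev FX dst) e z ∧ kd y ≠ kd z := by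
    intro y z h
    have h1 : Y.Edge e y := Y.edge _ _ _ h.1
    have h2 : Y.Edge e z := Y.symm _ _ (Y.edge _ _ _ (Y.rot _ _ _ (Y.rot _ _ _ h.1)))
    have h3 : Y.Edge y z := Y.edge _ _ _ (Y.rot _ _ _ h.1)
    exact ⟨⟨h1, h.2.1⟩, ⟨h2, h.2.2⟩, hT.kd_ne y z h3⟩
  refine ⟨acyclic_of_height _ (fun x => kd x) ?_ ?_, ?_, ?_⟩
  · intro x y hxy
    exact (hdv x y hxy).2.2
  · intro x y z hxy hxz hy hz
    obtain ⟨h1, h2, h3⟩ := hdv x y hxy
    obtain ⟨-, h5, h6⟩ := hdv x z hxz
    have k1 := hk x h1.1
    have k2 := hk y h2.1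
    have k3 := hk z h5.1
    exact uc y z h2 h5 (by omega) (by omega)
  · intro y z hy hz
    rcases hk y hy.1 with ky | ky <;> rcases hk z hz.1 with kz | kz
    · rw [uc y z hy hz ky kz]
    · exact (adj y z hy hz ky kz).reachable
    · exact (adj z y hz hy kz ky).reachable.symm
    · rw [up y z hy hz ky kz]
  · intro y z hy hz cy cz
    have h1 : kd y = 2 := by
      rcases cy with h | h
      · omega
      · exact h.2.1
    have h2 : kd z = 2 := by
      rcases cz with h | h
      · omega
      · exact h.2.1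
    exact up y z hy hz h1 h2

theorem down_hyp (hT : TC Y kd τ) (hL : Lv Y kd lev o) {e x : U} (he : kd e = 1) (hx : Y.Edge e x) :
    ∃ y, DV Y (rk Y kd lev FX dst) e y := by
  obtain ⟨p, hp, hep⟩ := hyp_pt hT he hx
  by_cases ht : TyI Y kd lev e
  · obtain ⟨g, hg, hge, hml⟩ := ge_exists hT hL ht hp hep
    exact ⟨g, Y.symm _ _ hge, (rk_cell_hyp hT hL hg he hge).2 hml⟩
  · obtain ⟨p, hp, hep, hl⟩ := exists_ml (lev := lev) ⟨p, hp, hep⟩
    exact ⟨p, hep, (rk_pt_hyp hT hL he hp hep).2 (Or.inl ⟨ht, hl⟩)⟩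

end Pool.Agent.H52.FR
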