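import Pool.Agent.H52.FR.Rk

/-!
# The descending links: definitions
-/

set_option autoImplicit false

namespace Pool.Agent.H52.FR

open Pool.Agent.H54.CX Pool.Agent.H59.DE

variable {U T : Type} (Y : Cpx U) (kd : U → ℕ) {α : Type} [LinearOrder α] (R : U → α) (FX : U → Prop)

/-- `y` is a vertex of the descending link of `x` -/
def DV (x y : U) : Prop := Y.Edge x y ∧ R y < R x

/-- the descending link as a graph -/
def DG (x : U) : SimpleGraph U where
  Adj y z := Y.Tri x y z ∧ R y < R x ∧ R z < R x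
  symm := ⟨fun y z h => ⟨Y.swap _ _ _ (Y.rot _ _ _ (Y.rot _ _ _ h.1)), h.2.2, h.2.1⟩⟩
  loopless := ⟨fun y h => Y.ne _ _ (Y.edge _ _ _ (Y.rot _ _ _ h.1)) rfl⟩

/-- the hyperedge of the edge `x y` is fixed and `y` is not a cell -/
def Crit (x y : U) : Prop := (kd x = 2 ∧ kd y = 1 ∧ FX y) ∨ (kd x = 1 ∧ kd y = 2 ∧ FX x)

/-- the descending link of `x` is a tree with at most one critical vertex -/
structure Good (x : U) : Prop where
  acy : (DG Y R x).IsAcyclic
  con : ∀ y z, DV Y R x y → DV Y R x z → (DG Y R x).Reachable y z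
  uni : ∀ y z, DV Y R x y → DV Y R x z → Crit kd FX x y → Crit kd FX x z → y = z

end Pool.Agent.H52.FR
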