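import Pool.Agent.H52.FR.Dlk

/-!
# [H52 FR DLP] the descending link of a point

`R = rk ..`.  Let `p` be a point.  Vertices of the descending link of `p`: cells `g` at `p` with `ml g + 1 = lev p` (`rk_cell_pt`), used hyperedges, hyperedges of
type I which are not fixed or have smaller `dst` (`rk_hyp_pt`).  If there is any, `lev p ≠ 0` (`tyI_pos` for type I) and there is a cell at `p`; let `g0` be a cell with
`IsG0 p g0`; it is a vertex (`g0_low`).
Edges join cells and hyperedges (`tri_kinds`, one of the three vertices is the point `p`).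
HEIGHT `h`: `h g0 = 0`, used hyperedges `1`, other cells `2`, hyperedges of type I `3`, (used ones are not of type I, `used_ml`).  `acyclic_of_height`: adjacent vertices have
different heights; lower neighbours are unique: of a used hyperedge: only `g0`; of a cell `g ≠ g0`: its used hyperedges; two different ones are both in `g0` (`used_g0`), so `g = g0`
by `l2_of`; of a hyperedge `e` of type I: cells `g` with `ml g + 1 = lev p = ml e`: `ge_unique`.
CONNECTED: everything is joined with `g0`: used hyperedges by `used_g0`; a cell `g ≠ g0` has a used hyperedge (`low_g0`); a hyperedge of type I is adjacent to its lower cell (`ge_exists`,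
`t3_of`; it is a vertex).
UNIQUE critical vertex: let `y ≠ z` be fixed hyperedges in the descending link.  `FixP.far`: `Far p y z`.  Both used: both in `g0`, so adjacent.  `y` used, `z` of type I with lower
cell `c`: `c = g0`: adjacent; otherwise a used `a` in `c` (`low_g0`), `a = y`: adjacent; `a ≠ y`: path `y a z`.  Both of type I: `dst y < dst p`, `dst z < dst p`: `Hgt.hy`.
-/

set_option autoImplicit false

namespace Pool.Agent.H52.FR

open Pool.Agent.H54.CX Pool.Agent.H59.DE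

variable {U T : Type} {Y : Cpx U} {kd : U → ℕ} {τ : U → T} {lev : U → ℕ} {o : U} {FX : U → Prop} {dst : U → ℕ}

private theorem t3_tri {g e p : U} (h : T3 Y kd g e p) : Y.Tri p g e := Y.rot _ _ _ (Y.rot _ _ _ h.2.2.2)

private theorem dv_cases (hT : TC Y kd τ) (hL : Lv Y kd lev o) {p y : U} (hp : kd p = 2)
    (h : DV Y (rk Y kd lev FX dst) p y) :
    (kd y = 0 ∧ Y.Edge y p ∧ ml Y kd lev y + 1 = lev p) ∨ Used Y kd lev p y ∨
      (TyI Y kd lev y ∧ Y.Edge y p ∧ ml Y kd lev y = lev p ∧ (¬ FX y ∨ dst y < dst p)) := by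
  have h1 := hT.kd_ne _ _ h.1
  have h2 := hT.kd_le y
  have hyp : Y.Edge y p := Y.symm _ _ h.1
  rw [hp] at h1
  have h3 : kd y = 0 ∨ kd y = 1 := by omega
  rcases h3 with h3 | h3
  · exact Or.inl ⟨h3, hyp, (rk_cell_pt hT hL h3 hp hyp).1 h.2⟩
  · rcases (rk_hyp_pt hT hL h3 hp hyp).1 h.2 with h4 | ⟨h4, h5⟩
    · exact Or.inr (Or.inl h4)
    · exact Or.inr (Or.inr ⟨h4, hyp, (h4.2 p hp hyp).symm, h5⟩)

private theorem adj_cases (hT : TC Y kd τ) {p y z : U} (hp : kd p = 2)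
    (h : (DG Y (rk Y kd lev FX dst) p).Adj y z) : T3 Y kd y z p ∨ T3 Y kd z y p := by
  rcases tri_kinds hT h.1 with h1 | h1 | h1 | h1 | h1 | h1
  · have := h1.1
    omega
  · have := h1.1
    omega
  · have := h1.2.1
    omega
  · exact Or.inl h1
  · have := h1.2.1
    omega
  · exact Or.inr h1

private theorem dv_adj {p y z : U} (h : (DG Y (rk Y kd lev FX dst) p).Adj y z) :
    DV Y (rk Y kd lev FX dst) p y := ⟨Y.edge _ _ _ h.1, h.2.1⟩

private theorem dv_cell (hT : TC Y kd τ) (hL : Lv Y kd lev o) {p y : U} (hp : kd p = 2) (hy : kd y = 0)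
    (h : Y.Edge y p) (hl : ml Y kd lev y + 1 = lev p) : DV Y (rk Y kd lev FX dst) p y :=
  ⟨Y.symm _ _ h, (rk_cell_pt hT hL hy hp h).2 hl⟩

private theorem dv_used (hT : TC Y kd τ) (hL : Lv Y kd lev o) {p y : U} (hp : kd p = 2)
    (h : Used Y kd lev p y) : DV Y (rk Y kd lev FX dst) p y :=
  ⟨Y.symm _ _ h.2.1, (rk_hyp_pt hT hL h.1 hp h.2.1).2 (Or.inl h)⟩

private theorem mk_adj {p g e : U} (h : T3 Y kd g e p) (h1 : DV Y (rk Y kd lev FX dst) p g)
    (h2 : DV Y (rk Y kd lev FX dst) p e) : (DG Y (rk Y kd lev FX dst) p).Adj g e :=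
  ⟨t3_tri h, h1.2, h2.2⟩

private theorem lev_pos (hT : TC Y kd τ) (hL : Lv Y kd lev o) {p y : U} (hp : kd p = 2)
    (h : DV Y (rk Y kd lev FX dst) p y) : lev p ≠ 0 := by
  rcases dv_cases hT hL hp h with ⟨_, _, h1⟩ | ⟨_, _, q, _, _, h1⟩ | ⟨h1, h2, h3, _⟩
  · omega
  · omega
  · have := tyI_pos hT hL h1 hp h2
    omega

private theorem ex_cell (hT : TC Y kd τ) (hL : Lv Y kd lev o) {p y : U} (hp : kd p = 2)
    (h : DV Y (rk Y kd lev FX dst) p y) : ∃ c, kd c = 0 ∧ Y.Edge c p := by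
  rcases dv_cases hT hL hp h with ⟨h0, h1, _⟩ | ⟨h0, h1, _⟩ | ⟨h0, h1, _, _⟩
  · exact ⟨y, h0, h1⟩
  · obtain ⟨g, hg⟩ := cell_of hT h0 hp h1
    exact ⟨g, hg.1, hg.gp⟩
  · obtain ⟨g, hg⟩ := cell_of hT h0.1 hp h1
    exact ⟨g, hg.1, hg.gp⟩

/-- a hyperedge of type I in the descending link and its lower cell -/
private theorem dlp_low_cell (hT : TC Y kd τ) (hL : Lv Y kd lev o) {p e : U} (hp : kd p = 2) (he : TyI Y kd lev e)
    (hep : Y.Edge e p) : ∃ c, T3 Y kd c e p ∧ ml Y kd lev c + 1 = lev p := by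
  obtain ⟨c, hc, hce, hl⟩ := ge_exists hT hL he hp hep
  have := he.2 p hp hep
  exact ⟨c, t3_of hT hc he.1 hp hce hep, by omega⟩

open Classical in
private noncomputable def ht (Y : Cpx U) (kd lev : U → ℕ) (p g0 x : U) : ℕ :=
  if x = g0 then 0 else if Used Y kd lev p x then 1 else if kd x = 0 then 2 else 3

private theorem ht_cell {p g0 x : U} (hx : kd x = 0) :
    (x = g0 ∧ ht Y kd lev p g0 x = 0) ∨ (x ≠ g0 ∧ ht Y kd lev p g0 x = 2) := by
  by_cases h : x = g0
  · exact Or.inl ⟨h, by rw [ht, if_pos h]⟩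
  · have h1 : ¬ Used Y kd lev p x := fun h1 => by
      have := h1.1
      omega
    exact Or.inr ⟨h, by rw [ht, if_neg h, if_neg h1, if_pos hx]⟩

private theorem ht_hyp {p g0 x : U} (hg : kd g0 = 0) (hx : kd x = 1) :
    (Used Y kd lev p x ∧ ht Y kd lev p g0 x = 1) ∨ (¬ Used Y kd lev p x ∧ ht Y kd lev p g0 x = 3) := by
  have h : x ≠ g0 := fun h => by
    rw [h] at hx
    omega
  by_cases h1 : Used Y kd lev p x
  · exact Or.inl ⟨h1, by rw [ht, if_neg h, if_pos h1]⟩
  · exact Or.inr ⟨h1, by rw [ht, if_neg h, if_neg h1, if_neg (by omega)]⟩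

private theorem acy (hT : TC Y kd τ) (hL : Lv Y kd lev o) {p g0 : U}
    (hp : kd p = 2) (h0 : IsG0 Y kd lev p g0) : (DG Y (rk Y kd lev FX dst) p).IsAcyclic := by
  refine acyclic_of_height _ (ht Y kd lev p g0) ?_ ?_
  · intro x y hxy
    rcases adj_cases hT hp hxy with h | h
    · have h1 := ht_cell (Y := Y) (lev := lev) (p := p) (g0 := g0) h.1
      have h2 := ht_hyp (Y := Y) (lev := lev) (p := p) h0.1 h.2.1
      omega
    · have h1 := ht_cell (Y := Y) (lev := lev) (p := p) (g0 := g0) h.1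
      have h2 := ht_hyp (Y := Y) (lev := lev) (p := p) h0.1 h.2.1
      omega
  · intro x y z hxy hxz hy hz
    rcases adj_cases hT hp hxy with h | h
    · rcases adj_cases hT hp hxz with h' | h'
      swap
      · have := h'.2.1
        have := h.1
        omega
      by_contra hyz
      have h1 := ht_cell (Y := Y) (lev := lev) (p := p) (g0 := g0) h.1
      have h2 := ht_hyp (Y := Y) (lev := lev) (p := p) h0.1 h.2.1
      have h3 := ht_hyp (Y := Y) (lev := lev) (p := p) h0.1 h'.2.1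
      rcases h1 with ⟨_, h1⟩ | ⟨hx, h1⟩
      · omega
      rcases h2 with ⟨u1, _⟩ | ⟨_, h2⟩
      swap
      · omega
      rcases h3 with ⟨u2, _⟩ | ⟨_, h3⟩
      swap
      · omega
      exact hx (l2_of hT h h' (used_g0 hT hL hp h0 u1) (used_g0 hT hL hp h0 u2) hyz)
    · rcases adj_cases hT hp hxz with h' | h'
      · have := h'.1
        have := h.2.1
        omega
      have h1 := ht_hyp (Y := Y) (lev := lev) (p := p) h0.1 h.2.1
      rcases h1 with ⟨_, h1⟩ | ⟨hx, h1⟩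
      · have h2 := ht_cell (Y := Y) (lev := lev) (p := p) (g0 := g0) h.1
        have h3 := ht_cell (Y := Y) (lev := lev) (p := p) (g0 := g0) h'.1
        rcases h2 with ⟨e2, _⟩ | ⟨_, h2⟩
        swap
        · omega
        rcases h3 with ⟨e3, _⟩ | ⟨_, h3⟩
        swap
        · omega
        rw [e2, e3]
      · rcases dv_cases hT hL hp (dv_adj hxy) with ⟨a1, _, _⟩ | a1 | ⟨a1, a2, a3, _⟩
        · have := h.2.1
          omega
        · exact absurd a1 hx
        · have b1 : ml Y kd lev y + 1 = lev p :=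
            (rk_cell_pt hT hL h.1 hp h.gp).1 hxy.2.2
          have b2 : ml Y kd lev z + 1 = lev p :=
            (rk_cell_pt hT hL h'.1 hp h'.gp).1 hxz.2.2
          exact ge_unique hT hL a1 h.1 h.ge (by omega) h'.1 h'.ge (by omega)

private theorem conn (hT : TC Y kd τ) (hL : Lv Y kd lev o) {p g0 y : U}
    (hp : kd p = 2) (h0 : IsG0 Y kd lev p g0) (hy : DV Y (rk Y kd lev FX dst) p y) :
    (DG Y (rk Y kd lev FX dst) p).Reachable g0 y := by
  have hl := lev_pos hT hL hp hy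
  have d0 : DV Y (rk Y kd lev FX dst) p g0 := dv_cell hT hL hp h0.1 h0.2.1 (g0_low hT hL hp h0 hl)
  have hu : ∀ a, Used Y kd lev p a → (DG Y (rk Y kd lev FX dst) p).Reachable g0 a := fun a ha =>
    (mk_adj (used_g0 hT hL hp h0 ha) d0 (dv_used hT hL hp ha)).reachable
  have hc : ∀ c, kd c = 0 → Y.Edge c p → ml Y kd lev c + 1 = lev p →
      (DG Y (rk Y kd lev FX dst) p).Reachable g0 c := by
    intro c c1 c2 c3
    rcases low_g0 hT hL hp h0 c1 c2 c3 with rfl | ⟨a, a1, a2⟩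
    · exact SimpleGraph.Reachable.refl _
    · exact (hu a a1).trans
        (mk_adj a2 (dv_cell hT hL hp c1 c2 c3) (dv_used hT hL hp a1)).symm.reachable
  rcases dv_cases hT hL hp hy with ⟨a1, a2, a3⟩ | a1 | ⟨a1, a2, a3, _⟩
  · exact hc y a1 a2 a3
  · exact hu y a1
  · obtain ⟨c, c1, c2⟩ := dlp_low_cell hT hL hp a1 a2
    exact (hc c c1.1 c1.gp c2).trans (mk_adj c1 (dv_cell hT hL hp c1.1 c1.gp c2) hy).reachable

theorem good_pt (hT : TC Y kd τ) (hL : Lv Y kd lev o) (hF : FixP Y kd FX) (hd : Hgt Y kd lev FX dst) {p : U}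
    (hp : kd p = 2) : Good Y kd (rk Y kd lev FX dst) FX p := by
  by_cases hne : ∃ y, DV Y (rk Y kd lev FX dst) p y
  swap
  · refine ⟨acyclic_of_height _ (fun _ => 0) (fun x y h => absurd ⟨x, dv_adj h⟩ hne)
      (fun x y z h _ _ _ => absurd ⟨x, dv_adj h⟩ hne), fun y z h _ => absurd ⟨y, h⟩ hne,
      fun y z h _ _ _ => absurd ⟨y, h⟩ hne⟩
  obtain ⟨y0, hy0⟩ := hne
  have hl := lev_pos hT hL hp hy0
  obtain ⟨c0, hc0, hc0p⟩ := ex_cell hT hL hp hy0
  obtain ⟨g0, h0⟩ := g0_exists hT hL hp hc0 hc0p hl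
  have mix : ∀ y z, y ≠ z → Far Y kd p y z → Used Y kd lev p y → TyI Y kd lev z → Y.Edge z p → False := by
    intro y z hyz hf hy hz hzp
    obtain ⟨c, c1, c2⟩ := dlp_low_cell hT hL hp hz hzp
    rcases low_g0 hT hL hp h0 c1.1 c1.gp c2 with hc | ⟨a, a1, a2⟩
    · rw [hc] at c1
      exact hf.2.1 ⟨hyz, g0, used_g0 hT hL hp h0 hy, c1⟩
    · by_cases hay : a = y
      · rw [hay] at a2
        exact hf.2.1 ⟨hyz, c, a2, c1⟩
      · have haz : a ≠ z := fun h => (used_ml hT hL hp a1).2 (h ▸ hz)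
        exact hf.2.2 a ⟨fun h => hay h.symm, g0, used_g0 hT hL hp h0 hy, used_g0 hT hL hp h0 a1⟩
          ⟨haz, c, a2, c1⟩
  refine ⟨acy hT hL hp h0, fun y z hy hz => (conn hT hL hp h0 hy).symm.trans (conn hT hL hp h0 hz), ?_⟩
  intro y z hy hz cy cz
  by_contra hyz
  have fy : kd y = 1 ∧ FX y := by
    rcases cy with h | h
    · exact h.2
    · have := h.1
      omega
  have fz : kd z = 1 ∧ FX z := by
    rcases cz with h | h
    · exact h.2
    · have := h.1
      omega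
  have hf := hF.far y z p fy.1 fz.1 hp (Y.symm _ _ hy.1) (Y.symm _ _ hz.1) fy.2 fz.2 hyz
  rcases dv_cases hT hL hp hy with ⟨a1, _, _⟩ | a1 | ⟨a1, a2, a3, a4⟩
  · omega
  · rcases dv_cases hT hL hp hz with ⟨b1, _, _⟩ | b1 | ⟨b1, b2, b3, b4⟩
    · omega
    · exact hf.2.1 ⟨hyz, g0, used_g0 hT hL hp h0 a1, used_g0 hT hL hp h0 b1⟩
    · exact mix y z hyz hf a1 b1 b2
  · rcases dv_cases hT hL hp hz with ⟨b1, _, _⟩ | b1 | ⟨b1, b2, b3, b4⟩
    · omega
    · exact mix z y (Ne.symm hyz) hf.symm b1 a1 a2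
    · exact hyz (hd.hy y z p ⟨a1, fy.2, hp, a2⟩ ⟨b1, fz.2, hp, b2⟩
        (a4.resolve_left (fun h => h fy.2)) (b4.resolve_left (fun h => h fz.2)))

/-- a point of level different from zero has a lower neighbour -/
theorem down_pt (hT : TC Y kd τ) (hL : Lv Y kd lev o) {p c : U} (hp : kd p = 2) (hc : kd c = 0) (hcp : Y.Edge c p)
    (hl : lev p ≠ 0) : ∃ y, DV Y (rk Y kd lev FX dst) p y := by
  obtain ⟨g0, h0⟩ := g0_exists hT hL hp hc hcp hl
  exact ⟨g0, dv_cell hT hL hp h0.1 h0.2.1 (g0_low hT hL hp h0 hl)⟩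

end Pool.Agent.H52.FR
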