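import Pool.Agent.H52.FR.Hyp

/-!
# [H52 FR G0] the lower neighbours of a point are in one cell

`lev p ≠ 0`.  `share`: two cells `c ≠ c'` with the points `p ≠ q` have a common hyperedge with `p` and `q` (`Lv.com`).
`g0_exists`.  Let `q` run through the neighbours of `p` with `lev q + 1 = lev p` (there is one, `Lv.down`).  Call a cell good for `q` if it contains `p` and
`q`.  By `Lv.dd` any two `q`, `q'` have a common good cell (for `q = q'` too).  If two different cells are good for `q` they are cells around a hyperedge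
`a` with `p`, `q`, and then every cell around `a` is good for `q` (`TC.fill`), and every cell good for `q` is a cell around `a` (`Lv.com`, `lg_of`).
Case 1: some `q` has only one good cell `g`: then `g` is good for all `q'` (`Lv.dd`).
Case 2: every `q` has a hyperedge `a_q`.  If all the `a_q` are equal any cell around it works.  Otherwise let `a = a_q ≠ a' = a_q'`, `g` a common good cell of `q`, `q'`:
it contains `a`, `a'` at `p`.  Let `q''` be arbitrary with `a''`; if `a'' = a` or `a'' = a'` then `g` is good for `q''`.  Otherwise the common good cells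
of `q''`, `q` and of `q''`, `q'` and `g` give a triangle `a a' a''` in the link of `p`, contradiction to `no3`.
`used_g0`: let `q` be the lower point of `a`, `c` a cell around `a` (`cell_of`): `g0` contains `q`, so `c = g0` or `share` gives a common hyperedge of `c`, `g0` with `p`,
`q`, which is `a` by `lg_of` in `c`.
`low_g0`: `g` has a point `q` of level `ml g`, it is in `g0`; if `g ≠ g0`, `share` gives `a`.
`used_low`: the lower point `q` of `a` is in `g`, so `ml g ≤ lev q`, and `lev p ≤ ml g + 1`.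
-/

set_option autoImplicit false

namespace Pool.Agent.H52.FR

open Pool.Agent.H54.CX Pool.Agent.H59.DE

variable {U T : Type} {Y : Cpx U} {kd : U → ℕ} {τ : U → T} {lev : U → ℕ} {o : U}

theorem share (hT : TC Y kd τ) (hL : Lv Y kd lev o) {c c' p q : U} (hc : kd c = 0) (hc' : kd c' = 0) (hp : kd p = 2)
    (hq : kd q = 2) (hpq : p ≠ q) (h1 : Y.Edge c p) (h2 : Y.Edge c q) (h3 : Y.Edge c' p) (h4 : Y.Edge c' q)
    (hne : c ≠ c') : ∃ e, T3 Y kd c e p ∧ T3 Y kd c e q ∧ T3 Y kd c' e p ∧ T3 Y kd c' e q := by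
  have _ := hT.kd_le
  rcases hL.com c c' p q hc hc' hp hq hpq h1 h2 h3 h4 with h | ⟨e, he, t1, t2, t3, t4⟩
  · exact absurd h hne
  · exact ⟨e, ⟨hc, he, hp, t1⟩, ⟨hc, he, hq, t2⟩, ⟨hc', he, hp, t3⟩, ⟨hc', he, hq, t4⟩⟩

/-- a cell with two points of a hyperedge contains the hyperedge -/
private theorem hyp_all (hT : TC Y kd τ) (hL : Lv Y kd lev o) {a g p q : U} (ha : kd a = 1) (hp : kd p = 2)
    (hq : kd q = 2) (hpq : p ≠ q) (h1 : Y.Edge a p) (h2 : Y.Edge a q) (hg : kd g = 0) (h3 : Y.Edge g p)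
    (h4 : Y.Edge g q) : T3 Y kd g a p ∧ T3 Y kd g a q := by
  obtain ⟨g1, hg1⟩ := cell_of hT ha hp h1
  have hg2 := t3_of hT hg1.1 ha hq hg1.ge h2
  by_cases h : g = g1
  · subst h
    exact ⟨hg1, hg2⟩
  · obtain ⟨e, t1, t2, t3, t4⟩ := share hT hL hg hg1.1 hp hq hpq h3 h4 hg1.gp hg2.gp h
    by_cases hea : e = a
    · subst hea
      exact ⟨t1, t2⟩
    · exact absurd (lg_of hT t3 hg1 t4 hg2 hea) hpq

private theorem ne_of_lev {p q : U} (h : lev q + 1 = lev p) : p ≠ q := by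
  rintro rfl
  omega

theorem g0_exists (hT : TC Y kd τ) (hL : Lv Y kd lev o) {p c : U} (hp : kd p = 2) (hc : kd c = 0) (hcp : Y.Edge c p)
    (hl : lev p ≠ 0) : ∃ g, IsG0 Y kd lev p g := by
  obtain ⟨c0, q0, hc0, hq0, h01, h02, h03⟩ := hL.down c p hc hp hcp hl
  -- two lower points have a common good cell
  have dd : ∀ c q c' q', kd c = 0 → kd q = 2 → Y.Edge c p → Y.Edge c q → lev q + 1 = lev p →
      kd c' = 0 → kd q' = 2 → Y.Edge c' p → Y.Edge c' q' → lev q' + 1 = lev p →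
      ∃ g, kd g = 0 ∧ Y.Edge g p ∧ Y.Edge g q ∧ Y.Edge g q' :=
    fun c q c' q' h1 h2 h3 h4 h5 h6 h7 h8 h9 h10 =>
      hL.dd c c' p q q' h1 h6 hp h2 h7 h3 h4 h8 h9 h5 h10
  by_cases case1 : ∃ g q, kd g = 0 ∧ kd q = 2 ∧ Y.Edge g p ∧ Y.Edge g q ∧ lev q + 1 = lev p ∧
      ∀ g', kd g' = 0 → Y.Edge g' p → Y.Edge g' q → g' = g
  · obtain ⟨g, q, hg, hq, h1, h2, h3, h4⟩ := case1
    refine ⟨g, hg, h1, ?_⟩
    intro c' q' hc' hq' h5 h6 h7
    obtain ⟨g', hg', h8, h9, h10⟩ := dd g q c' q' hg hq h1 h2 h3 hc' hq' h5 h6 h7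
    have := h4 g' hg' h8 h9
    subst this
    exact h10
  · -- every lower point has a hyperedge
    have hyp : ∀ c q, kd c = 0 → kd q = 2 → Y.Edge c p → Y.Edge c q → lev q + 1 = lev p →
        ∃ a, kd a = 1 ∧ Y.Edge a p ∧ Y.Edge a q := by
      intro c' q hc' hq h1 h2 h3
      have h4 : ∃ g', kd g' = 0 ∧ Y.Edge g' p ∧ Y.Edge g' q ∧ g' ≠ c' := by
        by_contra hcon
        push Not at hcon
        exact case1 ⟨c', q, hc', hq, h1, h2, h3, hcon⟩
      obtain ⟨g', hg', h5, h6, h7⟩ := h4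
      obtain ⟨e, t1, t2, _, _⟩ := share hT hL hg' hc' hp hq (ne_of_lev h3) h5 h6 h1 h2 h7
      exact ⟨e, t1.2.1, t1.ep, t2.ep⟩
    obtain ⟨a0, ha0, h04, h05⟩ := hyp c0 q0 hc0 hq0 h01 h02 h03
    by_cases hall : ∀ c q, kd c = 0 → kd q = 2 → Y.Edge c p → Y.Edge c q → lev q + 1 = lev p → Y.Edge a0 q
    · obtain ⟨g, hg⟩ := cell_of hT ha0 hp h04
      refine ⟨g, hg.1, hg.gp, ?_⟩
      intro c' q hc' hq h1 h2 h3
      exact (t3_of hT hg.1 ha0 hq hg.ge (hall c' q hc' hq h1 h2 h3)).gp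
    · push Not at hall
      obtain ⟨c1, q1, hc1, hq1, h11, h12, h13, h14⟩ := hall
      obtain ⟨a1, ha1, h15, h16⟩ := hyp c1 q1 hc1 hq1 h11 h12 h13
      have hne : a0 ≠ a1 := by
        rintro rfl
        exact h14 h16
      obtain ⟨g, hg, g1, g2, g3⟩ := dd c0 q0 c1 q1 hc0 hq0 h01 h02 h03 hc1 hq1 h11 h12 h13
      have t0 := (hyp_all hT hL ha0 hp hq0 (ne_of_lev h03) h04 h05 hg g1 g2).1
      have t1 := (hyp_all hT hL ha1 hp hq1 (ne_of_lev h13) h15 h16 hg g1 g3).1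
      refine ⟨g, hg, g1, ?_⟩
      intro c2 q2 hc2 hq2 h21 h22 h23
      obtain ⟨a2, ha2, h24, h25⟩ := hyp c2 q2 hc2 hq2 h21 h22 h23
      by_cases e0 : a2 = a0
      · subst e0
        exact (t3_of hT hg ha2 hq2 t0.ge h25).gp
      · by_cases e1 : a2 = a1
        · subst e1
          exact (t3_of hT hg ha2 hq2 t1.ge h25).gp
        · exfalso
          obtain ⟨g', hg', k1, k2, k3⟩ := dd c0 q0 c2 q2 hc0 hq0 h01 h02 h03 hc2 hq2 h21 h22 h23
          obtain ⟨g'', hg'', l1, l2, l3⟩ := dd c1 q1 c2 q2 hc1 hq1 h11 h12 h13 hc2 hq2 h21 h22 h23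
          have s1 := (hyp_all hT hL ha0 hp hq0 (ne_of_lev h03) h04 h05 hg' k1 k2).1
          have s2 := (hyp_all hT hL ha2 hp hq2 (ne_of_lev h23) h24 h25 hg' k1 k3).1
          have s3 := (hyp_all hT hL ha1 hp hq1 (ne_of_lev h13) h15 h16 hg'' l1 l2).1
          have s4 := (hyp_all hT hL ha2 hp hq2 (ne_of_lev h23) h24 h25 hg'' l1 l3).1
          exact no3 hT ⟨hne, g, t0, t1⟩ ⟨fun h => e1 h.symm, g'', s3, s4⟩ ⟨e0, g', s2, s1⟩

theorem g0_low (hT : TC Y kd τ) (hL : Lv Y kd lev o) {p g : U} (hp : kd p = 2) (h : IsG0 Y kd lev p g)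
    (hl : lev p ≠ 0) : ml Y kd lev g + 1 = lev p := by
  obtain ⟨hg, hgp, hall⟩ := h
  obtain ⟨c, q, hc, hq, h1, h2, h3⟩ := hL.down g p hg hp hgp hl
  have h4 := hall c q hc hq h1 h2 h3
  have h5 : ml Y kd lev g ≤ lev q := ml_le hq h4
  have h6 := lev_le hT hL (Or.inl hg) hp hgp
  omega

theorem used_g0 (hT : TC Y kd τ) (hL : Lv Y kd lev o) {p g a : U} (hp : kd p = 2) (h : IsG0 Y kd lev p g)
    (ha : Used Y kd lev p a) : T3 Y kd g a p := by
  obtain ⟨hg, hgp, hall⟩ := h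
  obtain ⟨ha1, hap, q, hq, haq, hlq⟩ := ha
  obtain ⟨c, hc⟩ := cell_of hT ha1 hp hap
  have hcq := t3_of hT hc.1 ha1 hq hc.ge haq
  exact (hyp_all hT hL ha1 hp hq (ne_of_lev hlq) hap haq hg hgp (hall c q hc.1 hq hc.gp hcq.gp hlq)).1

theorem low_g0 (hT : TC Y kd τ) (hL : Lv Y kd lev o) {p g c : U} (hp : kd p = 2) (h : IsG0 Y kd lev p g)
    (hc : kd c = 0) (hcp : Y.Edge c p) (hl : ml Y kd lev c + 1 = lev p) :
    c = g ∨ ∃ a, Used Y kd lev p a ∧ T3 Y kd c a p := by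
  by_cases hcg : c = g
  · exact Or.inl hcg
  · right
    obtain ⟨hg, hgp, hall⟩ := h
    obtain ⟨q, hq, hcq, hlq⟩ := exists_ml (kd := kd) (lev := lev) ⟨p, hp, hcp⟩
    have h3 : lev q + 1 = lev p := by omega
    obtain ⟨e, t1, t2, _, _⟩ := share hT hL hc hg hp hq (ne_of_lev h3) hcp hcq hgp (hall c q hc hq hcp hcq h3) hcg
    exact ⟨e, ⟨t1.2.1, t1.ep, q, hq, t2.ep, h3⟩, t1⟩

theorem used_low (hT : TC Y kd τ) (hL : Lv Y kd lev o) {p g a : U} (hp : kd p = 2) (ha : Used Y kd lev p a)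
    (hg : T3 Y kd g a p) : ml Y kd lev g + 1 = lev p := by
  obtain ⟨ha1, hap, q, hq, haq, hlq⟩ := ha
  have h1 := t3_of hT hg.1 ha1 hq hg.ge haq
  have h2 : ml Y kd lev g ≤ lev q := ml_le hq h1.gp
  have h3 := lev_le hT hL (Or.inl hg.1) hp hg.gp
  omega

/-- a used hyperedge is not of type I -/
theorem used_ml (hT : TC Y kd τ) (hL : Lv Y kd lev o) {p a : U} (hp : kd p = 2) (ha : Used Y kd lev p a) :
    ml Y kd lev a + 1 = lev p ∧ ¬ TyI Y kd lev a := by
  obtain ⟨ha1, hap, q, hq, haq, hlq⟩ := ha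
  have h2 : ml Y kd lev a ≤ lev q := ml_le hq haq
  have h3 := lev_le hT hL (Or.inr ha1) hp hap
  refine ⟨by omega, ?_⟩
  intro h4
  have h5 := h4.2 p hp hap
  omega

/-- a hyperedge at `p` with smaller minimal level is used -/
theorem used_of (hT : TC Y kd τ) (hL : Lv Y kd lev o) {p a : U} (hp : kd p = 2) (ha : kd a = 1) (hap : Y.Edge a p)
    (hl : ml Y kd lev a + 1 = lev p) : Used Y kd lev p a := by
  have _ := hT.kd_le
  have _ := hL.base
  obtain ⟨q, hq, haq, hlq⟩ := exists_ml (kd := kd) (lev := lev) ⟨p, hp, hap⟩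
  exact ⟨ha, hap, q, hq, haq, by omega⟩

end Pool.Agent.H52.FR
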