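import Pool.Agent.H52.FR.G0

/-!
# [H52 FR GE] the lower cell of a hyperedge of type I

`ge_exists`: `two_pts` and `ld_cell` (`ml c` is `ml e - 1`: the points of `e` are points of `c`, `lev_le`, `ml_le`).
`ge_unique`.  Let `c ≠ c'` be two such cells, `r ∈ c`, `r' ∈ c'` points of level `ml e - 1`, `p` a point of `e`.  Let `g` be a cell with `IsG0 p g`
(`g0_exists`).  `r`, `r'` are in `g`.  They are not points of `e` (type I).  If `g = c`: `c`, `c'` have the points `p`, `r'`, so a common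
hyperedge `a` with `p`, `r'` (`share`), `a ≠ e`, and the common hyperedge `e`: `l2_of` gives `c = c'`.  Same for `g = c'`.  Otherwise `share` for `g`, `c` and `p`, `r` gives
`a` in `g`, `c`, for `g`, `c'` and `p`, `r'` gives `a'` in `g`, `c'`.  `a ≠ e ≠ a'`.  If `a = a'`: `l2_of` for `c`, `c'` and `e`, `a`.  Otherwise `e a a'` is a triangle in the link
of `p`: `no3`.
`ge_ml`: the points of `e` are points of `g`.
`two_tyI` (two different hyperedges of type I on the minimal level of a common cell have no common point of that cell): let `e ≠ e'` be hyperedges of the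
cell `g` with the common point `p`, both of type I, `ml e = ml e' = ml g`.  Let `c`, `c'` be the lower cells of `e`, `e'`, `r`, `r'` lower points in them,
`k` with `IsG0 p k`.  `low_g0` for `c`: `c = k` or a used `a` in `c` at `p`; same for `c'`.  `g ≠ c, c', k` (levels).  If `c = k = c'`:
`c` contains `e`, `e'` at `p`, so `c = g` by `l2_of`.  If `c = k ≠ c'`: the used `a'` is in `c'` and in `k` (`used_g0`): `e`, `a'` in `c`, `e'`, `a'` in `c'`, `e`, `e'` in `g`:
triangle (`a'` is not of type I, `used_ml`, so it is different from `e`, `e'`).  If `c ≠ k ≠ c'`: `a = a'` gives the same triangle; `a ≠ a'`: the 4-cycle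
`e a a' e'` (`a`, `a'` in `k`, `used_g0`): `no4` gives `e = a'` or `a = e'`, impossible.
-/

set_option autoImplicit false

namespace Pool.Agent.H52.FR

open Pool.Agent.H54.CX Pool.Agent.H59.DE

variable {U T : Type} {Y : Cpx U} {kd : U → ℕ} {τ : U → T} {lev : U → ℕ} {o : U}

theorem ge_exists (hT : TC Y kd τ) (hL : Lv Y kd lev o) {e p : U} (he : TyI Y kd lev e) (hp : kd p = 2)
    (hep : Y.Edge e p) : ∃ g, kd g = 0 ∧ Y.Edge g e ∧ ml Y kd lev g + 1 = ml Y kd lev e := by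
  obtain ⟨q, hq, heq, hqp⟩ := two_pts hT he.1 hp hep
  have hlp := he.2 p hp hep
  have hlq := he.2 q hq heq
  obtain ⟨c, r, hc, hce, hr, hcr, hl⟩ := ld_cell hT hL he.1 hp hq hep heq hqp.symm (hlp.trans hlq.symm)
  refine ⟨c, hc, hce, ?_⟩
  have h1 : ml Y kd lev c ≤ lev r := ml_le hr hcr
  have h2 := lev_le hT hL (Or.inl hc) hp (t3_of hT hc he.1 hp hce hep).gp
  omega

theorem ge_unique (hT : TC Y kd τ) (hL : Lv Y kd lev o) {e g g' : U} (he : TyI Y kd lev e)
    (hg : kd g = 0) (h1 : Y.Edge g e) (h2 : ml Y kd lev g + 1 = ml Y kd lev e) (hg' : kd g' = 0) (h3 : Y.Edge g' e)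
    (h4 : ml Y kd lev g' + 1 = ml Y kd lev e) : g = g' := by
  by_contra hne
  obtain ⟨p, hp, hep⟩ := hyp_pt hT he.1 (Y.symm _ _ h1)
  have hlp := he.2 p hp hep
  have t1 := t3_of hT hg he.1 hp h1 hep
  have t2 := t3_of hT hg' he.1 hp h3 hep
  obtain ⟨r, hr, hgr, hlr⟩ := exists_ml (lev := lev) ⟨p, hp, t1.gp⟩
  obtain ⟨r', hr', hgr', hlr'⟩ := exists_ml (lev := lev) ⟨p, hp, t2.gp⟩
  have hl0 : lev p ≠ 0 := by omega
  have hrl : lev r + 1 = lev p := by omega
  have hrl' : lev r' + 1 = lev p := by omega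
  have hpr : p ≠ r := fun h => by
    rw [h] at hrl
    omega
  have hpr' : p ≠ r' := fun h => by
    rw [h] at hrl'
    omega
  have hre : ¬ Y.Edge e r := fun h => by
    have := he.2 r hr h
    omega
  have hre' : ¬ Y.Edge e r' := fun h => by
    have := he.2 r' hr' h
    omega
  obtain ⟨k, hk⟩ := g0_exists hT hL hp hg t1.gp hl0
  have hkr : Y.Edge k r := hk.2.2 g r hg hr t1.gp hgr hrl
  have hkr' : Y.Edge k r' := hk.2.2 g' r' hg' hr' t2.gp hgr' hrl'
  by_cases c1 : g = k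
  · rw [← c1] at hkr'
    obtain ⟨a, a1, a2, a3, a4⟩ := share hT hL hg hg' hp hr' hpr' t1.gp hkr' t2.gp hgr' hne
    have hea : e ≠ a := fun h => hre' (h ▸ a2.ep)
    exact hne (l2_of hT t1 a1 t2 a3 hea)
  by_cases c2 : g' = k
  · rw [← c2] at hkr
    obtain ⟨a, a1, a2, a3, a4⟩ := share hT hL hg hg' hp hr hpr t1.gp hgr t2.gp hkr hne
    have hea : e ≠ a := fun h => hre (h ▸ a2.ep)
    exact hne (l2_of hT t1 a1 t2 a3 hea)
  obtain ⟨a, a1, a2, a3, a4⟩ := share hT hL hg hk.1 hp hr hpr t1.gp hgr hk.2.1 hkr c1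
  obtain ⟨b, b1, b2, b3, b4⟩ := share hT hL hg' hk.1 hp hr' hpr' t2.gp hgr' hk.2.1 hkr' c2
  have hea : e ≠ a := fun h => hre (h ▸ a2.ep)
  have heb : e ≠ b := fun h => hre' (h ▸ b2.ep)
  by_cases hab : a = b
  · rw [← hab] at b1
    exact hne (l2_of hT t1 a1 t2 b1 hea)
  · exact no3 hT (p := p) (a := e) (b := a) (c := b) ⟨hea, g, t1, a1⟩ ⟨hab, k, a3, b3⟩
      ⟨heb.symm, g', b1, t2⟩

theorem two_tyI (hT : TC Y kd τ) (hL : Lv Y kd lev o) {g e e' p : U} (he : TyI Y kd lev e) (he' : TyI Y kd lev e')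
    (h1 : T3 Y kd g e p) (h2 : T3 Y kd g e' p) (h3 : ml Y kd lev e = ml Y kd lev g)
    (h4 : ml Y kd lev e' = ml Y kd lev g) : e = e' := by
  by_contra hne
  have hp := h1.2.2.1
  have hep := h1.ep
  have hep' := h2.ep
  have hlp := he.2 p hp hep
  obtain ⟨c, hc, hce, hcl⟩ := ge_exists hT hL he hp hep
  obtain ⟨c', hc', hce', hcl'⟩ := ge_exists hT hL he' hp hep'
  have t1 := t3_of hT hc he.1 hp hce hep
  have t2 := t3_of hT hc' he'.1 hp hce' hep'
  have hl0 : lev p ≠ 0 := by omega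
  obtain ⟨k, hk⟩ := g0_exists hT hL hp hc t1.gp hl0
  have hkl := g0_low hT hL hp hk hl0
  have hgk : k ≠ g := fun h => by
    rw [h] at hkl
    omega
  have key : ∀ a, Used Y kd lev p a → a ≠ e ∧ a ≠ e' ∧ T3 Y kd k a p := by
    intro a ha
    have h5 := (used_ml hT hL hp ha).2
    exact ⟨fun h => h5 (h ▸ he), fun h => h5 (h ▸ he'), used_g0 hT hL hp hk ha⟩
  rcases low_g0 hT hL hp hk hc t1.gp (by omega) with c1 | ⟨a, ha, ha3⟩
  · rw [c1] at t1
    rcases low_g0 hT hL hp hk hc' t2.gp (by omega) with c2 | ⟨b, hb, hb3⟩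
    · rw [c2] at t2
      exact hgk (l2_of hT t1 t2 h1 h2 hne)
    · obtain ⟨b1, b2, b3⟩ := key b hb
      exact no3 hT (p := p) (a := e) (b := b) (c := e') ⟨b1.symm, k, t1, b3⟩ ⟨b2, c', hb3, t2⟩
        ⟨fun h => hne h.symm, g, h2, h1⟩
  · obtain ⟨a1, a2, a3⟩ := key a ha
    rcases low_g0 hT hL hp hk hc' t2.gp (by omega) with c2 | ⟨b, hb, hb3⟩
    · rw [c2] at t2
      exact no3 hT (p := p) (a := e) (b := a) (c := e') ⟨a1.symm, c, t1, ha3⟩ ⟨a2, k, a3, t2⟩
        ⟨fun h => hne h.symm, g, h2, h1⟩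
    · obtain ⟨b1, b2, b3⟩ := key b hb
      by_cases hab : a = b
      · rw [← hab] at hb3
        exact no3 hT (p := p) (a := e) (b := a) (c := e') ⟨a1.symm, c, t1, ha3⟩ ⟨a2, c', hb3, t2⟩
          ⟨fun h => hne h.symm, g, h2, h1⟩
      · rcases no4 hT (p := p) (a := e) (b := a) (c := b) (d := e') ⟨a1.symm, c, t1, ha3⟩
          ⟨hab, k, a3, b3⟩ ⟨b2, c', hb3, t2⟩ ⟨fun h => hne h.symm, g, h2, h1⟩ with h5 | h5
        · exact b1 h5.symm
        · exact a2 h5

end Pool.Agent.H52.FR
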