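import Pool.Agent.H52.FR.Str
import Pool.Agent.H52.FR.Gr

/-!
# [H52 FR HG] the graph of the fixed points and fixed hyperedges of type I is a forest

Suppose not; `exists_seq` gives `s`.  Adjacent vertices of `HG` are a hyperedge and a point (kinds 1 and 2); we may assume `kd (s 0) = 1` (otherwise take `s (i + 1)`).  So
`e i = s (2 i)`, `p i = s (2 i + 1)`.  The level of `p i` is `ml (e i)` and `ml (e (i+1))` (type I), so all `ml (e i)` are equal.  `p i ≠ p (i+1)`, `e i ≠ e (i+1)`.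
`FixP.far` gives `Far`.  Contradiction to `no_straight`.
-/

set_option autoImplicit false

namespace Pool.Agent.H52.FR

open Pool.Agent.H54.CX Pool.Agent.H59.DE

variable {U T : Type} {Y : Cpx U} {kd : U → ℕ} {τ : U → T} {lev : U → ℕ} {o : U} {FX : U → Prop}

/-- `e` is a fixed hyperedge of type I with the point `p` -/
def Inc (Y : Cpx U) (kd lev : U → ℕ) (FX : U → Prop) (e p : U) : Prop := TyI Y kd lev e ∧ FX e ∧ kd p = 2 ∧ Y.Edge e p

/-- the graph of the fixed points and hyperedges of type I -/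
def HG (Y : Cpx U) (kd lev : U → ℕ) (FX : U → Prop) : SimpleGraph U where
  Adj x y := Inc Y kd lev FX x y ∨ Inc Y kd lev FX y x
  symm := ⟨fun _ _ h => h.symm⟩
  loopless := ⟨by
    intro x h
    have h1 : Y.Edge x x := by
      rcases h with h | h <;> exact h.2.2.2
    exact Y.ne _ _ h1 rfl⟩

private theorem hg_one {x y : U} (h : (HG Y kd lev FX).Adj x y) (hx : kd x = 1) : Inc Y kd lev FX x y := by
  rcases h with h | h
  · exact h
  · have := h.2.2.1
    omega

private theorem hg_two {x y : U} (h : (HG Y kd lev FX).Adj x y) (hx : kd x = 2) : Inc Y kd lev FX y x := by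
  rcases h with h | h
  · have := h.1.1
    omega
  · exact h

private theorem hg_core (hT : TC Y kd τ) (hL : Lv Y kd lev o) (hF : FixP Y kd FX) (s : ℕ → U)
    (h1 : ∀ i, (HG Y kd lev FX).Adj (s i) (s (i + 1))) (h2 : ∀ i, s i ≠ s (i + 2)) (h0 : kd (s 0) = 1) : False := by
  have hk : ∀ i, kd (s (2 * i)) = 1 ∧ kd (s (2 * i + 1)) = 2 := by
    intro i
    induction i with
    | zero => exact ⟨h0, (hg_one (h1 0) h0).2.2.1⟩
    | succ i ih =>
      have h3 := hg_two (h1 (2 * i + 1)) ih.2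
      have h4 : kd (s (2 * (i + 1))) = 1 := h3.1.1
      exact ⟨h4, (hg_one (h1 (2 * (i + 1))) h4).2.2.1⟩
  have hA : ∀ i, Inc Y kd lev FX (s (2 * i)) (s (2 * i + 1)) := fun i => hg_one (h1 _) (hk i).1
  have hB : ∀ i, Inc Y kd lev FX (s (2 * (i + 1))) (s (2 * i + 1)) := fun i => hg_two (h1 (2 * i + 1)) (hk i).2
  refine no_straight hT hL (ml Y kd lev (s 0)) (fun i => s (2 * i)) (fun i => s (2 * i + 1))
    ⟨fun i => (hA i).1, fun i => ?_, fun i => (hk i).2, fun i => (hA i).2.2.2, fun i => (hB i).2.2.2,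
      fun i => h2 (2 * i + 1), fun i => ?_⟩
  · induction i with
    | zero => rfl
    | succ i ih =>
      have h3 := (hA i).1.2 _ (hk i).2 (hA i).2.2.2
      have h4 := (hB i).1.2 _ (hk i).2 (hB i).2.2.2
      exact (h4.symm.trans h3).trans ih
  · exact hF.far _ _ _ (hk i).1 (hk (i + 1)).1 (hk i).2 (hA i).2.2.2 (hB i).2.2.2 (hA i).2.1 (hB i).2.1
      (h2 (2 * i))

theorem hg_acyclic (hT : TC Y kd τ) (hL : Lv Y kd lev o) (hF : FixP Y kd FX) : (HG Y kd lev FX).IsAcyclic := by
  by_contra hcon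
  obtain ⟨s, h1, h2⟩ := exists_seq hcon
  rcases h1 0 with h | h
  · exact hg_core hT hL hF s h1 h2 h.1.1
  · exact hg_core hT hL hF (fun i => s (i + 1)) (fun i => h1 (i + 1)) (fun i => h2 (i + 1)) h.1.1

/-- heights of the forest -/
structure Hgt (Y : Cpx U) (kd lev : U → ℕ) (FX : U → Prop) (dst : U → ℕ) : Prop where
  ne : ∀ e p, Inc Y kd lev FX e p → dst e ≠ dst p
  pt : ∀ e p p', Inc Y kd lev FX e p → Inc Y kd lev FX e p' → dst p < dst e → dst p' < dst e → p = p'
  hy : ∀ e e' p, Inc Y kd lev FX e p → Inc Y kd lev FX e' p → dst e < dst p → dst e' < dst p → e = e'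

theorem exists_hgt (hT : TC Y kd τ) (hL : Lv Y kd lev o) (hF : FixP Y kd FX) : ∃ dst : U → ℕ, Hgt Y kd lev FX dst := by
  obtain ⟨h, h1, h2⟩ := exists_height (hg_acyclic hT hL hF)
  exact ⟨h, fun e p he => h1 e p (Or.inl he), fun e p p' he he' h3 h4 => h2 e p p' (Or.inl he) (Or.inl he') h3 h4,
    fun e e' p he he' h3 h4 => h2 p e e' (Or.inr he) (Or.inr he') h3 h4⟩

end Pool.Agent.H52.FR
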