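import Pool.Agent.H52.FR.Bas

/-!
# [H52 FR HYP] the levels of the points of cells and hyperedges

`ml_le`: `Nat.sInf_le`.  `exists_ml`: `Nat.sInf_mem`.  `lev_le`: two points of a cell have levels which differ by at most one (`Lv.adj`), and the points
of a hyperedge are points of a common cell (`cell_of`, `t3_of`); take the point of level `ml x`.
`two_pts`: a cell `g` around `e` (`cell_of`) and `TC.pts`.
`hyp_cases`: let `q` have level `n = ml e`.  If it is the only point of `e` of level `n`, the other points have level `n + 1`.  Otherwise let `p ≠ q` be points of `e` of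
level `n`, `c` a cell around `e`; `Lv.ld` gives a cell `c'` with points `p`, `q`, `r`, `lev r + 1 = n`.  `Lv.com` for `c`, `c'`: either `c = c'`, or a common
hyperedge `e''` contains `p` and `q`, then `e'' = e` by `lg_of` in `c`.  So `c'` is a cell around `e` and contains all points `s` of `e`:
`lev s ≤ lev r + 1 = n`.
`ld_cell` (used again later) is this fact: two points `p ≠ q` of `e` of the same level have a common descending neighbour `r` in a cell around `e`.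
-/

set_option autoImplicit false

namespace Pool.Agent.H52.FR

open Pool.Agent.H54.CX Pool.Agent.H59.DE

variable {U T : Type} {Y : Cpx U} {kd : U → ℕ} {τ : U → T} {lev : U → ℕ} {o : U}

theorem ml_le {x p : U} (hp : kd p = 2) (h : Y.Edge x p) : ml Y kd lev x ≤ lev p :=
  Nat.sInf_le ⟨p, hp, h, rfl⟩

theorem exists_ml {x : U} (h : ∃ p, kd p = 2 ∧ Y.Edge x p) : ∃ p, kd p = 2 ∧ Y.Edge x p ∧ lev p = ml Y kd lev x := by
  obtain ⟨p, hp, hx⟩ := h
  exact Nat.sInf_mem (s := {n | ∃ p, kd p = 2 ∧ Y.Edge x p ∧ lev p = n}) ⟨lev p, p, hp, hx, rfl⟩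

/-- a cell with a neighbour has a point -/
theorem cell_pt (hT : TC Y kd τ) {g x : U} (hg : kd g = 0) (h : Y.Edge g x) : ∃ p, kd p = 2 ∧ Y.Edge g p := by
  have h1 := hT.kd_le x
  have h2 := hT.kd_ne g x h
  rw [hg] at h2
  rcases (by omega : kd x = 1 ∨ kd x = 2) with h3 | h3
  · obtain ⟨p, q, -, hp, -, hgp, -⟩ := hT.pts g x hg h3 h
    exact ⟨p, hp, T3.gp (⟨hg, h3, hp, hgp⟩ : T3 Y kd g x p)⟩
  · exact ⟨x, h3, h⟩

/-- a hyperedge with a neighbour has a point -/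
theorem hyp_pt (hT : TC Y kd τ) {e x : U} (he : kd e = 1) (h : Y.Edge e x) : ∃ p, kd p = 2 ∧ Y.Edge e p := by
  have h1 := hT.kd_le x
  have h2 := hT.kd_ne e x h
  rw [he] at h2
  rcases (by omega : kd x = 0 ∨ kd x = 2) with h3 | h3
  · obtain ⟨p, q, -, hp, -, hgp, -⟩ := hT.pts x e h3 he (Y.symm _ _ h)
    exact ⟨p, hp, T3.ep (⟨h3, he, hp, hgp⟩ : T3 Y kd x e p)⟩
  · exact ⟨x, h3, h⟩

theorem adj_hyp (hT : TC Y kd τ) (hL : Lv Y kd lev o) {e p q : U} (he : kd e = 1) (hp : kd p = 2) (hq : kd q = 2)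
    (h1 : Y.Edge e p) (h2 : Y.Edge e q) : lev p ≤ lev q + 1 := by
  obtain ⟨g, hg⟩ := cell_of hT he hp h1
  have hq' : T3 Y kd g e q := t3_of hT hg.1 he hq hg.ge h2
  exact hL.adj g p q hg.1 hp hq hg.gp hq'.gp

theorem lev_le (hT : TC Y kd τ) (hL : Lv Y kd lev o) {x p : U} (hx : kd x = 0 ∨ kd x = 1) (hp : kd p = 2)
    (h : Y.Edge x p) : lev p ≤ ml Y kd lev x + 1 := by
  obtain ⟨q, hq, hxq, hl⟩ := exists_ml (lev := lev) ⟨p, hp, h⟩
  rw [← hl]
  rcases hx with hx | hx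
  · exact hL.adj x p q hx hp hq h hxq
  · exact adj_hyp hT hL hx hp hq h hxq

theorem two_pts (hT : TC Y kd τ) {e p : U} (he : kd e = 1) (hp : kd p = 2) (h : Y.Edge e p) :
    ∃ q, kd q = 2 ∧ Y.Edge e q ∧ q ≠ p := by
  obtain ⟨g, hg⟩ := cell_of hT he hp h
  obtain ⟨p', q', hne, hp', hq', h1, h2⟩ := hT.pts g e hg.1 he hg.ge
  by_cases hpp : p' = p
  · exact ⟨q', hq', T3.ep (⟨hg.1, he, hq', h2⟩ : T3 Y kd g e q'), fun h3 => hne (hpp.trans h3.symm)⟩
  · exact ⟨p', hp', T3.ep (⟨hg.1, he, hp', h1⟩ : T3 Y kd g e p'), hpp⟩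

theorem ld_cell (hT : TC Y kd τ) (hL : Lv Y kd lev o) {e p q : U} (he : kd e = 1) (hp : kd p = 2) (hq : kd q = 2)
    (h1 : Y.Edge e p) (h2 : Y.Edge e q) (hpq : p ≠ q) (hl : lev p = lev q) :
    ∃ c r, kd c = 0 ∧ Y.Edge c e ∧ kd r = 2 ∧ Y.Edge c r ∧ lev r + 1 = lev p := by
  obtain ⟨c, hc⟩ := cell_of hT he hp h1
  have hc' : T3 Y kd c e q := t3_of hT hc.1 he hq hc.ge h2
  obtain ⟨c', r, hc'0, hr, hcp, hcq, hcr, hlr⟩ := hL.ld c p q hc.1 hp hq hc.gp hc'.gp hpq hl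
  rcases hL.com c c' p q hc.1 hc'0 hp hq hpq hc.gp hc'.gp hcp hcq with h3 | ⟨e', he', t1, t2, t3, t4⟩
  · subst h3
    exact ⟨c, r, hc.1, hc.ge, hr, hcr, hlr⟩
  · have hee : e = e' := by
      by_contra hne
      exact hpq (lg_of hT hc (⟨hc.1, he', hp, t1⟩ : T3 Y kd c e' p) hc'
        (⟨hc.1, he', hq, t2⟩ : T3 Y kd c e' q) hne)
    subst hee
    exact ⟨c', r, hc'0, Y.edge _ _ _ t3, hr, hcr, hlr⟩

theorem hyp_cases (hT : TC Y kd τ) (hL : Lv Y kd lev o) {e : U} (he : kd e = 1) (h : ∃ p, kd p = 2 ∧ Y.Edge e p) :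
    (TyI Y kd lev e ∧ 1 ≤ ml Y kd lev e) ∨ ∃ q, kd q = 2 ∧ Y.Edge e q ∧ lev q = ml Y kd lev e ∧
      ∀ p, kd p = 2 → Y.Edge e p → p ≠ q → lev p = ml Y kd lev e + 1 := by
  obtain ⟨q, hq, heq, hl⟩ := exists_ml (lev := lev) h
  by_cases hall : ∀ p, kd p = 2 → Y.Edge e p → p ≠ q → lev p = ml Y kd lev e + 1
  · exact Or.inr ⟨q, hq, heq, hl, hall⟩
  · left
    push Not at hall
    obtain ⟨p, hp, hep, hpq, hlp⟩ := hall
    have h1 : lev p ≤ ml Y kd lev e + 1 := lev_le hT hL (Or.inr he) hp hep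
    have h2 : ml Y kd lev e ≤ lev p := ml_le hp hep
    have h3 : lev p = ml Y kd lev e := by omega
    obtain ⟨c, r, hc, hce, hr, hcr, hlr⟩ := ld_cell hT hL he hp hq hep heq hpq (h3.trans hl.symm)
    refine ⟨⟨he, fun s hs hes => ?_⟩, by omega⟩
    have t : T3 Y kd c e s := t3_of hT hc he hs hce hes
    have h4 := hL.adj c s r hc hs hr t.gp hcr
    have h5 : ml Y kd lev e ≤ lev s := ml_le hs hes
    omega

theorem tyI_pos (hT : TC Y kd τ) (hL : Lv Y kd lev o) {e p : U} (h : TyI Y kd lev e) (hp : kd p = 2)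
    (hep : Y.Edge e p) : 1 ≤ ml Y kd lev e := by
  obtain ⟨q, hq, heq, hne⟩ := two_pts hT h.1 hp hep
  have h1 := h.2 p hp hep
  have h2 := h.2 q hq heq
  obtain ⟨c, r, hc, hce, hr, hcr, hlr⟩ := ld_cell hT hL h.1 hp hq hep heq hne.symm (h1.trans h2.symm)
  omega

/-- a hyperedge with points of different levels is not of type I, its lowest point is unique -/
theorem not_tyI (hT : TC Y kd τ) (hL : Lv Y kd lev o) {e p : U} (he : kd e = 1) (h : ¬ TyI Y kd lev e) (hp : kd p = 2)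
    (hep : Y.Edge e p) : ∃ q, kd q = 2 ∧ Y.Edge e q ∧ lev q = ml Y kd lev e ∧
      ∀ p, kd p = 2 → Y.Edge e p → p ≠ q → lev p = ml Y kd lev e + 1 := by
  rcases hyp_cases hT hL he ⟨p, hp, hep⟩ with h1 | h1
  · exact absurd h1.1 h
  · exact h1

/-- the hyperedge of a cell: `ml` is the same or the hyperedge is of type I on the upper level -/
theorem ml_hyp (hT : TC Y kd τ) (hL : Lv Y kd lev o) {g e : U} (hg : kd g = 0) (he : kd e = 1) (h : Y.Edge g e) :
    ml Y kd lev e = ml Y kd lev g ∨ (ml Y kd lev e = ml Y kd lev g + 1 ∧ TyI Y kd lev e) := by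
  obtain ⟨p, hp, hep⟩ := hyp_pt hT he (Y.symm _ _ h)
  have key : ∀ s, kd s = 2 → Y.Edge e s → ml Y kd lev g ≤ lev s ∧ lev s ≤ ml Y kd lev g + 1 := by
    intro s hs hes
    have t : T3 Y kd g e s := t3_of hT hg he hs h hes
    exact ⟨ml_le hs t.gp, lev_le hT hL (Or.inl hg) hs t.gp⟩
  obtain ⟨q, hq, heq, hl⟩ := exists_ml (lev := lev) ⟨p, hp, hep⟩
  have h1 := key q hq heq
  rcases (by omega : ml Y kd lev e = ml Y kd lev g ∨ ml Y kd lev e = ml Y kd lev g + 1) with h2 | h2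
  · exact Or.inl h2
  · refine Or.inr ⟨h2, he, fun s hs hes => ?_⟩
    have h3 := key s hs hes
    have h4 : ml Y kd lev e ≤ lev s := ml_le hs hes
    omega

end Pool.Agent.H52.FR
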