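import Pool.Agent.H52.FR.Rt

/-!
# [H52 FR LIF] the quotient: lifting, fixed vertices

`q : W → U` is the quotient map.  TYPES: if `n • x` and `x` are both neighbours of a cell `c` then `n • x = x` (`TC.inj`, `TAct.type`).  If `n • p` and `p` are points of the
hyperedge `e` then `n • p = p` (a cell around `e`: `TC.cell`, `TC.fill`).
`lift_edge`: `X.Edge x' y'` with `q x' = q x`: `x = n • x'`, take `n • y'` (`Inv.edge`).
`lift_tri`: `X.Tri x' y' c'` over `q x, q y, c`; translate such that `x' = x` (`Inv.tri`); `y = n • y'`.  If `x` is a cell or `y` and `y'` are ... : by kinds.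
(`x` cell: `y`, `y'` have the same type, both neighbours of `x`: equal.  `y` cell: `n⁻¹`-translate: `y = n y'` is a neighbour of `n x` and of `x`: `n x = x`, so `n • c'` works.
`x` point, `y` hyperedge: `x` and `n x` are points of `y`: `n x = x`, same.  `x` hyperedge, `y` point: `y`, `y'` are points of `x`: equal.)
`fx_iff`: conjugation.
`fixP`: `pt`: `n ≠ 1` fixes `e`, then it fixes its point `p` (types).  `far`: lift `p`, then `e` at `p`; `n ≠ 1` fixes `e` (`fx_iff`); `Full` gives: the stabiliser of `p` fixes `e`; same for `e'`; so (as `n` fixes `p`)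
one `n ≠ 1` fixes `p`, `e` and the lift of `e'` at `p`.  Let `AdjH (q p) (q e) (q e')`: lift the cell `g` and `e'` (`lift_tri`): `g` and `n g` contain `e`, `e'` at `p`, `l2` gives `n g = g`, contradiction
to `TAct.free`.  (All lifts of `q e'` at `p` which are needed are fixed by `n`: `fx_iff` and `Full` again.)  Path `e a e'`: lift it to `g`, `a`, `g'`, `e'`: `l4` for `e a e' (n a)` with the cells `g g' (n g') (n g)`: `e = e'` or `a = n a`; the second
case is excluded by `l2` (`g`, `n g` contain `e`, `a`).  `e = e'` contradicts `q e ≠ q e'`.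
-/

set_option autoImplicit false

namespace Pool.Agent.H52.FR

open Pool.Agent.H54.CX Pool.Agent.H59.DE

variable {W U T : Type} {X : Cpx W} {kd : W → ℕ} {τ : W → T} {Y : Cpx U} {kd' : U → ℕ} {τ' : U → T} {q : W → U}
  {N : Type} [Group N] [MulAction N W]

/-- `q : W → U` is the quotient by `N` -/
structure IsQuo (X : Cpx W) (kd : W → ℕ) (τ : W → T) (Y : Cpx U) (kd' : U → ℕ) (τ' : U → T) (q : W → U) (N : Type) [Group N]
    [MulAction N W] : Prop where
  surj : Function.Surjective q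
  orb : ∀ x y, q x = q y ↔ ∃ n : N, n • x = y
  edge : ∀ a b, Y.Edge a b ↔ ∃ x y, X.Edge x y ∧ q x = a ∧ q y = b
  tri : ∀ a b c, Y.Tri a b c ↔ ∃ x y z, X.Tri x y z ∧ q x = a ∧ q y = b ∧ q z = c
  kd : ∀ x, kd' (q x) = kd x
  ty : ∀ x, τ' (q x) = τ x

private theorem flip {V : Type} {Z : Cpx V} {a b c : V} (h : Z.Tri a b c) : Z.Tri c b a :=
  Z.rot _ _ _ (Z.rot _ _ _ (Z.swap _ _ _ h))

private theorem rot2 {V : Type} {Z : Cpx V} {a b c : V} (h : Z.Tri a b c) : Z.Tri c a b :=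
  Z.rot _ _ _ (Z.rot _ _ _ h)

private theorem ed2 {V : Type} {Z : Cpx V} {a b c : V} (h : Z.Tri a b c) : Z.Edge a c :=
  Z.symm _ _ (Z.edge _ _ _ (rot2 h))

private theorem kd_smul (hT : TC X kd τ) (ha : TAct X kd τ N) (n : N) (x : W) : kd (n • x) = kd x :=
  hT.kd_τ _ _ (ha.type n x)

private theorem q_smul (hq : IsQuo X kd τ Y kd' τ' q N) (n : N) (x : W) : q (n • x) = q x :=
  ((hq.orb x (n • x)).2 ⟨n, rfl⟩).symm

theorem fix_cell (hT : TC X kd τ) (ha : TAct X kd τ N) {c x : W} {n : N} (hc : kd c = 0) (h1 : X.Edge c x)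
    (h2 : X.Edge c (n • x)) : n • x = x :=
  hT.inj c (n • x) x hc h2 h1 (ha.type n x)

theorem fix_hyp (hT : TC X kd τ) (ha : TAct X kd τ N) {e p : W} {n : N} (he : kd e = 1) (hp : kd p = 2)
    (h1 : X.Edge e p) (h2 : X.Edge e (n • p)) : n • p = p := by
  obtain ⟨g, hg, hge⟩ := hT.cell e p he hp h1
  have hnp : kd (n • p) = 2 := (kd_smul hT ha n p).trans hp
  exact fix_cell hT ha hg (ed2 (hT.fill g e p hg he hp hge h1)) (ed2 (hT.fill g e (n • p) hg he hnp hge h2))

theorem lift_edge (ha : TAct X kd τ N) (hq : IsQuo X kd τ Y kd' τ' q N) {x : W} {b : U} (h : Y.Edge (q x) b) :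
    ∃ y, q y = b ∧ X.Edge x y := by
  obtain ⟨x', y', h1, h2, h3⟩ := (hq.edge _ _).1 h
  obtain ⟨n, hn⟩ := (hq.orb x' x).1 h2
  refine ⟨n • y', (q_smul hq n y').trans h3, ?_⟩
  have := ha.inv.edge n x' y' h1
  rwa [hn] at this

theorem lift_tri (hT : TC X kd τ) (ha : TAct X kd τ N) (hq : IsQuo X kd τ Y kd' τ' q N) {x y : W} {c : U}
    (hxy : X.Edge x y) (h : Y.Tri (q x) (q y) c) : ∃ z, q z = c ∧ X.Tri x y z := by
  obtain ⟨x', y', z', h1, h2, h3, h4⟩ := (hq.tri _ _ _).1 h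
  obtain ⟨n, hn⟩ := (hq.orb x' x).1 h2
  have t1 := ha.inv.tri n x' y' z' h1
  rw [hn] at t1
  have h5 : q (n • y') = q y := (q_smul hq n y').trans h3
  have h6 : q (n • z') = c := (q_smul hq n z').trans h4
  obtain ⟨m, hm⟩ := (hq.orb _ _).1 h5
  have e1 : X.Edge x (n • y') := X.edge _ _ _ t1
  have k1 : kd (n • y') = kd y := by rw [← hm, kd_smul hT ha m]
  suffices hk : ∃ k : N, k • x = x ∧ k • (n • y') = y by
    obtain ⟨k, k1, k2⟩ := hk
    refine ⟨k • (n • z'), (q_smul hq k _).trans h6, ?_⟩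
    have := ha.inv.tri k _ _ _ t1
    rwa [k1, k2] at this
  have hyx : X.Edge y x := X.symm _ _ hxy
  have e2 : X.Edge y (m • x) := by
    have := ha.inv.edge m _ _ (X.symm _ _ e1)
    rwa [hm] at this
  have e3 : X.Edge x (m • (n • y')) := by rwa [hm]
  have a1 := hT.kd_ne _ _ hxy
  have a2 := hT.kd_le x
  have a3 := hT.kd_le y
  by_cases c0 : kd x = 0
  · have := fix_cell hT ha c0 e1 e3
    exact ⟨1, one_smul _ _, by rw [one_smul, ← hm, this]⟩
  by_cases c1 : kd y = 0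
  · exact ⟨m, fix_cell hT ha c1 hyx e2, hm⟩
  by_cases c2 : kd x = 2
  · exact ⟨m, fix_hyp hT ha (by omega) c2 hyx e2, hm⟩
  · have := fix_hyp hT ha (by omega) (by omega) e1 e3
    exact ⟨1, one_smul _ _, by rw [one_smul, ← hm, this]⟩

/-- the vertices with nontrivial stabiliser -/
def FXq (q : W → U) (N : Type) [Group N] [MulAction N W] (a : U) : Prop := ∃ x, q x = a ∧ ∃ n : N, n ≠ 1 ∧ n • x = x

theorem fx_iff (hq : IsQuo X kd τ Y kd' τ' q N) {x : W} : FXq q N (q x) ↔ ∃ n : N, n ≠ 1 ∧ n • x = x := by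
  constructor
  · rintro ⟨x', h1, n, h2, h3⟩
    obtain ⟨m, hm⟩ := (hq.orb x' x).1 h1
    refine ⟨m * n * m⁻¹, fun h => h2 ?_, ?_⟩
    · have h4 : m * n = m := by
        rw [← mul_one m, ← inv_mul_cancel m]
        calc m * (m⁻¹ * m) * n = m * n := by group
          _ = (m * n * m⁻¹) * m := by group
          _ = m * (m⁻¹ * m) := by rw [h]; group
      exact mul_left_cancel (h4.trans (mul_one m).symm)
    · rw [← hm, mul_smul, mul_smul, inv_smul_smul, h3]
  · rintro ⟨n, h1, h2⟩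
    exact ⟨x, rfl, n, h1, h2⟩

theorem fixP (hT : TC X kd τ) (ha : TAct X kd τ N) (hfull : Full X kd N) (hq : IsQuo X kd τ Y kd' τ' q N) :
    FixP Y kd' (FXq q N) := by
  constructor
  · intro e p he hp hep hfe
    obtain ⟨e0, rfl⟩ := hq.surj e
    obtain ⟨p0, rfl, h1⟩ := lift_edge ha hq hep
    obtain ⟨n, n1, n2⟩ := (fx_iff hq).1 hfe
    rw [hq.kd] at he hp
    have h2 := ha.inv.edge n _ _ h1
    rw [n2] at h2
    exact (fx_iff hq).2 ⟨n, n1, fix_hyp hT ha he hp h1 h2⟩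
  · intro e e' p he he' hp h1 h2 f1 f2 hne
    obtain ⟨p0, rfl⟩ := hq.surj p
    obtain ⟨e0, rfl, h3⟩ := lift_edge ha hq (Y.symm _ _ h1)
    have hp0 : kd p0 = 2 := by rwa [← hq.kd]
    have he0 : kd e0 = 1 := by rwa [← hq.kd]
    -- hyperedges at the point with nontrivial stabiliser are fixed by the stabiliser of the point
    have key : ∀ x : W, kd x = 1 → X.Edge x p0 → FXq q N (q x) → ∀ n : N, n • p0 = p0 → n • x = x := by
      intro x x1 x2 x3 n hn
      obtain ⟨m, m1, m2⟩ := (fx_iff hq).1 x3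
      exact hfull x p0 m x1 hp0 x2 m1 m2 n hn
    obtain ⟨n, n1, n2⟩ := (fx_iff hq).1 f1
    have n3 : n • p0 = p0 := by
      have h4 := ha.inv.edge n _ _ (X.symm _ _ h3)
      rw [n2] at h4
      exact fix_hyp hT ha he0 hp0 (X.symm _ _ h3) h4
    -- a cell with two fixed hyperedges at the point is fixed
    have fin : ∀ (g x : W), kd g = 0 → kd x = 1 → e0 ≠ x → n • x = x → X.Tri g e0 p0 → X.Tri g x p0 → False := by
      intro g x hg hx hex hn t1 t2
      have t3 := ha.inv.tri n _ _ _ t1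
      have t4 := ha.inv.tri n _ _ _ t2
      rw [n2, n3] at t3
      rw [hn, n3] at t4
      have := hT.l2 p0 e0 x g (n • g) hp0 he0 hx hg ((kd_smul hT ha n g).trans hg) hex t1 t2 t3 t4
      exact n1 (ha.free n g hg this.symm)
    refine ⟨hne, ?_, ?_⟩
    · rintro ⟨_, g, g1, g2⟩
      obtain ⟨g0, rfl, t1⟩ := lift_tri hT ha hq h3 (flip g1.2.2.2)
      obtain ⟨e1, rfl, t2⟩ := lift_tri hT ha hq (ed2 t1) (rot2 g2.2.2.2)
      have hg0 : kd g0 = 0 := by rw [← hq.kd]; exact g1.1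
      have he1 : kd e1 = 1 := by rw [← hq.kd]; exact he'
      exact fin g0 e1 hg0 he1 (fun h => hne (by rw [h])) (key e1 he1 (X.symm _ _ (ed2 t2)) f2 n n3)
        (flip t1) (X.rot _ _ _ t2)
    · rintro a ⟨ne1, g, g1, g2⟩ ⟨ne2, g', g3, g4⟩
      obtain ⟨g0, rfl, t1⟩ := lift_tri hT ha hq h3 (flip g1.2.2.2)
      obtain ⟨a0, rfl, t2⟩ := lift_tri hT ha hq (ed2 t1) (rot2 g2.2.2.2)
      obtain ⟨g0', rfl, t3⟩ := lift_tri hT ha hq (ed2 t2) (flip g3.2.2.2)
      obtain ⟨e1, rfl, t4⟩ := lift_tri hT ha hq (ed2 t3) (rot2 g4.2.2.2)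
      have hg0 : kd g0 = 0 := by rw [← hq.kd]; exact g1.1
      have hg0' : kd g0' = 0 := by rw [← hq.kd]; exact g3.1
      have ha0 : kd a0 = 1 := by rw [← hq.kd]; exact g2.2.1
      have he1 : kd e1 = 1 := by rw [← hq.kd]; exact he'
      have n4 : n • e1 = e1 := key e1 he1 (X.symm _ _ (ed2 t4)) f2 n n3
      have u1 : X.Tri g0 e0 p0 := flip t1
      have u2 : X.Tri g0 a0 p0 := X.rot _ _ _ t2
      have u3 : X.Tri g0' a0 p0 := flip t3
      have u4 : X.Tri g0' e1 p0 := X.rot _ _ _ t4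
      have v1 := ha.inv.tri n _ _ _ u1
      have v2 := ha.inv.tri n _ _ _ u2
      have v3 := ha.inv.tri n _ _ _ u3
      have v4 := ha.inv.tri n _ _ _ u4
      rw [n2, n3] at v1
      rw [n3] at v2 v3
      rw [n4, n3] at v4
      have w1 : e0 ≠ a0 := fun h => ne1 (by rw [h])
      have w2 : a0 ≠ e1 := fun h => ne2 (by rw [h])
      have w3 : e1 ≠ n • a0 := fun h => ne2 (by rw [h, q_smul hq])
      have w4 : n • a0 ≠ e0 := fun h => ne1 (by rw [← h, q_smul hq])
      rcases hT.l4 p0 e0 a0 e1 (n • a0) g0 g0' (n • g0') (n • g0) hp0 he0 ha0 he1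
        ((kd_smul hT ha n a0).trans ha0) hg0 hg0' ((kd_smul hT ha n g0').trans hg0')
        ((kd_smul hT ha n g0).trans hg0) u1 u2 u3 u4 v4 v3 v2 v1 w1 w2 w3 w4 with h | h
      · exact hne (by rw [h])
      · exact fin g0 a0 hg0 ha0 w1 h.symm u1 u2

end Pool.Agent.H52.FR
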