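import Pool.Agent.H52.FR.Shq
import Pool.Agent.H34.RT.Tree
import Pool.Agent.H59.DE.Lvl
import Pool.Agent.H54.AR.TqTC
import Pool.Agent.H54.AR.TqSC

/-!
# The normal subgroup generated by elements with fixed vertices is in the class

Levels of the quotient (`exists_levels`), rooted descending links of the quotient (`exists_rooted`), rank and depth on the complex (`sh_of_rooted`), and the
theorem on ranks with rooted descending links (`mem_of_sh`).
-/

set_option autoImplicit false

namespace Pool.Agent.H52.FR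

open Pool.Agent.H54.CX Pool.Agent.H59.DE Pool.Agent.H54.AR Pool.Agent.H54.DD Pool.Agent.H98.FJ Pool.Agent.H93.TR

variable {W T P : Type} {X : Cpx W} {kd : W → ℕ} {τ : W → T} [Group P] [MulAction P W]

theorem tact_sub (ha : TAct X kd τ P) (N : Subgroup P) : TAct X kd τ N where
  inv := ⟨fun n a b h => ha.inv.edge n.1 a b h, fun n a b c h => ha.inv.tri n.1 a b c h, fun n a b h => ha.inv.len n.1 a b h⟩
  type n x := ha.type n.1 x
  free n c hc h := Subtype.ext (ha.free n.1 c hc h)

/-- the quotient of helper54 is a quotient -/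
theorem isQuo_tquo (hT : TC X kd τ) (ha : TAct X kd τ P) (N : Subgroup P) :
    IsQuo X kd τ (tquo hT ha N) (qkd hT ha N) (qτ ha N) (orb N) N where
  surj := orb_surj N
  orb x y := by
    rw [orb_eq_iff]
    constructor
    · rintro ⟨n, hn, h⟩
      exact ⟨⟨n, hn⟩⁻¹, by rw [← h]; exact inv_smul_smul (⟨n, hn⟩ : N) y⟩
    · rintro ⟨n, h⟩
      exact ⟨(n⁻¹).1, (n⁻¹).2, by rw [← h]; exact inv_smul_smul n x⟩
  edge a b := by
    constructor
    · rintro ⟨x, y, hx, hy, h⟩
      exact ⟨x, y, h, hx, hy⟩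
    · rintro ⟨x, y, h, hx, hy⟩
      exact ⟨x, y, hx, hy, h⟩
  tri a b c := by
    constructor
    · rintro ⟨x, y, z, hx, hy, hz, h⟩
      exact ⟨x, y, z, h, hx, hy, hz⟩
    · rintro ⟨x, y, z, h, hx, hy, hz⟩
      exact ⟨x, y, z, hx, hy, hz, h⟩
  kd x := rfl
  ty x := rfl

/-- a connected complex without isolated vertices, or with one vertex -/
theorem edge_of_sc {V : Type} {Y : Cpx V} (hsc : Y.SC) (o x : V) : x = o ∨ ∃ y, Y.Edge x y := by
  obtain ⟨l, hl⟩ := hsc.conn x o
  obtain ⟨hc, hh, hlast⟩ := hl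
  induction l with
  | nil => simp at hh
  | cons a l ih =>
    have ha : a = x := by simpa using hh
    subst ha
    cases l with
    | nil =>
      left
      simpa using hlast
    | cons b l =>
      rw [List.isChain_cons_cons] at hc
      rcases hc.1 with h | h
      · subst h
        exact ih hc.2 (by simp) (by simpa using hlast)
      · exact Or.inr ⟨b, h⟩

theorem n_mem {C : (G : Type) → [Group G] → Prop} (hC : Inherits C) (hE : Extension C) {Q : Type} [Group Q]
    (hT : TC X kd τ) (hsc : X.SC) (ha : TAct X kd τ P) (N : Subgroup P) (hcl : CL X kd N) (hfull : Full X kd N)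
    (hgen : N ≤ Subgroup.closure {n : P | n ∈ N ∧ ∃ v : W, n • v = v}) (hQ : C Q) (f : N →* Q)
    (hf : Pool.Agent.H54.DD.StabInj W f) : C N := by
  by_cases hne : ∃ a b, X.Edge a b
  · have hTY : TC (tquo hT ha N) (qkd hT ha N) (qτ ha N) := tquo_tc hcl
    have hscY : (tquo hT ha N).SC := tquo_sc hsc hgen
    have hneY : ∃ a b, (tquo hT ha N).Edge a b := by
      obtain ⟨a, b, h⟩ := hne
      exact ⟨orb N a, orb N b, a, b, rfl, rfl, h⟩
    obtain ⟨lev, o, hL⟩ := exists_levels hTY hscY hneY
    have hiq := isQuo_tquo hT ha N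
    have haN := tact_sub ha N
    obtain ⟨R, δ, hR⟩ := exists_rooted hTY hL (fixP hT haN hfull hiq) (edge_of_sc hscY o)
    obtain ⟨o', rfl⟩ := hiq.surj o
    exact Pool.Agent.H34.RT.mem_of_sh hC hE haN.inv hsc
      (Pool.Agent.H34.RT.sh0_of_sh (sh_of_rooted hT haN hfull hiq hR)) hQ f hf
  · have hsub : ∀ x y : W, x = y := by
      intro x y
      rcases edge_of_sc hsc y x with h | ⟨z, h⟩
      · exact h
      · exact (hne ⟨x, z, h⟩).elim
    obtain ⟨v⟩ := hsc.nonempty
    refine hC.of_injective f ?_ hQ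
    rw [injective_iff_map_eq_one]
    exact fun n hn => hf v n (hsub _ _) hn

end Pool.Agent.H52.FR
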