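import Pool.Agent.H52.FR.Hg

/-!
# [H52 FR RK] the rank

Points of level `n`: `(4 n + 1, dst)`; cells with minimal level `n`: `(4 n + 3, 0)`; hyperedges of type I with level `n`: `(4 n, 0)`, or `(4 n + 1, dst)` if they are
fixed; the other hyperedges with minimal level `n`: `(4 n + 2, 0)`.  All statements: unfold `rk`, `Prod.Lex` order (`Prod.Lex.toLex_lt_toLex`), `omega`.
Cell `g`, point `p`: `lev p = ml g` or `ml g + 1` (`ml_le`, `lev_le`).  Cell `g`, hyperedge `e`: `ml_hyp`.
Hyperedge `e` not of type I, point `p`: `lev p = ml e` or `ml e + 1`.  Type I: `lev p = ml e`.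
-/

set_option autoImplicit false

namespace Pool.Agent.H52.FR

open Pool.Agent.H54.CX Pool.Agent.H59.DE

variable {U T : Type} {Y : Cpx U} {kd : U → ℕ} {τ : U → T} {lev : U → ℕ} {o : U} {FX : U → Prop} {dst : U → ℕ}

open Classical in
/-- the rank -/
noncomputable def rk (Y : Cpx U) (kd lev : U → ℕ) (FX : U → Prop) (dst : U → ℕ) (x : U) : ℕ ×ₗ ℕ :=
  toLex (if kd x = 2 then (4 * lev x + 1, dst x) else if kd x = 0 then (4 * ml Y kd lev x + 3, 0) else
    if TyI Y kd lev x then (if FX x then (4 * ml Y kd lev x + 1, dst x) else (4 * ml Y kd lev x, 0))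
    else (4 * ml Y kd lev x + 2, 0))

private theorem rk_p {p : U} (hp : kd p = 2) : rk Y kd lev FX dst p = toLex (4 * lev p + 1, dst p) := by
  unfold rk
  rw [if_pos hp]

private theorem rk_g {g : U} (hg : kd g = 0) : rk Y kd lev FX dst g = toLex (4 * ml Y kd lev g + 3, 0) := by
  unfold rk
  rw [if_neg (by omega), if_pos hg]

private theorem rk_e1 {e : U} (he : kd e = 1) (h : TyI Y kd lev e) (hF : FX e) :
    rk Y kd lev FX dst e = toLex (4 * ml Y kd lev e + 1, dst e) := by
  unfold rk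
  rw [if_neg (by omega), if_neg (by omega), if_pos h, if_pos hF]

private theorem rk_e2 {e : U} (he : kd e = 1) (h : TyI Y kd lev e) (hF : ¬ FX e) :
    rk Y kd lev FX dst e = toLex (4 * ml Y kd lev e, 0) := by
  unfold rk
  rw [if_neg (by omega), if_neg (by omega), if_pos h, if_neg hF]

private theorem rk_e3 {e : U} (he : kd e = 1) (h : ¬ TyI Y kd lev e) :
    rk Y kd lev FX dst e = toLex (4 * ml Y kd lev e + 2, 0) := by
  unfold rk
  rw [if_neg (by omega), if_neg (by omega), if_neg h]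

/-- cell and point: the point is lower iff it has the minimal level -/
theorem rk_pt_cell (hT : TC Y kd τ) (hL : Lv Y kd lev o) {g p : U} (hg : kd g = 0) (hp : kd p = 2) (h : Y.Edge g p) :
    rk Y kd lev FX dst p < rk Y kd lev FX dst g ↔ lev p = ml Y kd lev g := by
  have h1 : ml Y kd lev g ≤ lev p := ml_le hp h
  have h2 := lev_le hT hL (Or.inl hg) hp h
  rw [rk_p hp, rk_g hg, Prod.Lex.toLex_lt_toLex]
  simp only
  omega

theorem rk_cell_pt (hT : TC Y kd τ) (hL : Lv Y kd lev o) {g p : U} (hg : kd g = 0) (hp : kd p = 2) (h : Y.Edge g p) :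
    rk Y kd lev FX dst g < rk Y kd lev FX dst p ↔ ml Y kd lev g + 1 = lev p := by
  have h1 : ml Y kd lev g ≤ lev p := ml_le hp h
  have h2 := lev_le hT hL (Or.inl hg) hp h
  rw [rk_p hp, rk_g hg, Prod.Lex.toLex_lt_toLex]
  simp only
  omega

theorem rk_hyp_cell (hT : TC Y kd τ) (hL : Lv Y kd lev o) {g e : U} (hg : kd g = 0) (he : kd e = 1) (h : Y.Edge g e) :
    rk Y kd lev FX dst e < rk Y kd lev FX dst g ↔ ml Y kd lev e = ml Y kd lev g := by
  have h1 := ml_hyp hT hL hg he h
  by_cases ht : TyI Y kd lev e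
  · by_cases hF : FX e
    · rw [rk_g hg, rk_e1 he ht hF, Prod.Lex.toLex_lt_toLex]
      simp only
      omega
    · rw [rk_g hg, rk_e2 he ht hF, Prod.Lex.toLex_lt_toLex]
      simp only
      omega
  · have h2 : ml Y kd lev e = ml Y kd lev g := by
      rcases h1 with h1 | h1
      · exact h1
      · exact absurd h1.2 ht
    rw [rk_g hg, rk_e3 he ht, Prod.Lex.toLex_lt_toLex]
    simp only
    omega

theorem rk_cell_hyp (hT : TC Y kd τ) (hL : Lv Y kd lev o) {g e : U} (hg : kd g = 0) (he : kd e = 1) (h : Y.Edge g e) :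
    rk Y kd lev FX dst g < rk Y kd lev FX dst e ↔ ml Y kd lev g + 1 = ml Y kd lev e := by
  have h1 := ml_hyp hT hL hg he h
  by_cases ht : TyI Y kd lev e
  · by_cases hF : FX e
    · rw [rk_g hg, rk_e1 he ht hF, Prod.Lex.toLex_lt_toLex]
      simp only
      omega
    · rw [rk_g hg, rk_e2 he ht hF, Prod.Lex.toLex_lt_toLex]
      simp only
      omega
  · have h2 : ml Y kd lev e = ml Y kd lev g := by
      rcases h1 with h1 | h1
      · exact h1
      · exact absurd h1.2 ht
    rw [rk_g hg, rk_e3 he ht, Prod.Lex.toLex_lt_toLex]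
    simp only
    omega

theorem rk_pt_hyp (hT : TC Y kd τ) (hL : Lv Y kd lev o) {e p : U} (he : kd e = 1) (hp : kd p = 2) (h : Y.Edge e p) :
    rk Y kd lev FX dst p < rk Y kd lev FX dst e ↔
      (¬ TyI Y kd lev e ∧ lev p = ml Y kd lev e) ∨ (TyI Y kd lev e ∧ FX e ∧ dst p < dst e) := by
  have h1 : ml Y kd lev e ≤ lev p := ml_le hp h
  have h2 := lev_le hT hL (Or.inr he) hp h
  by_cases ht : TyI Y kd lev e
  · have h3 : lev p = ml Y kd lev e := ht.2 p hp h
    by_cases hF : FX e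
    · rw [rk_p hp, rk_e1 he ht hF, Prod.Lex.toLex_lt_toLex]
      simp only [ht, hF, not_true, false_and, true_and, false_or]
      omega
    · rw [rk_p hp, rk_e2 he ht hF, Prod.Lex.toLex_lt_toLex]
      simp only [ht, hF, not_true, false_and, and_false, or_false, iff_false]
      omega
  · rw [rk_p hp, rk_e3 he ht, Prod.Lex.toLex_lt_toLex]
    simp only [ht, not_false_iff, true_and, false_and, or_false]
    omega

theorem rk_hyp_pt (hT : TC Y kd τ) (hL : Lv Y kd lev o) {e p : U} (he : kd e = 1) (hp : kd p = 2) (h : Y.Edge e p) :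
    rk Y kd lev FX dst e < rk Y kd lev FX dst p ↔
      Used Y kd lev p e ∨ (TyI Y kd lev e ∧ (¬ FX e ∨ dst e < dst p)) := by
  have h1 : ml Y kd lev e ≤ lev p := ml_le hp h
  have h2 := lev_le hT hL (Or.inr he) hp h
  by_cases ht : TyI Y kd lev e
  · have h3 : lev p = ml Y kd lev e := ht.2 p hp h
    have h4 : ¬ Used Y kd lev p e := by
      rintro ⟨-, -, q, hq, heq, hl⟩
      have h5 := ht.2 q hq heq
      omega
    by_cases hF : FX e
    · rw [rk_p hp, rk_e1 he ht hF, Prod.Lex.toLex_lt_toLex]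
      simp only [h4, ht, hF, not_true, true_and, false_or]
      omega
    · rw [rk_p hp, rk_e2 he ht hF, Prod.Lex.toLex_lt_toLex]
      simp only [h4, ht, hF, not_false_iff, true_and, true_or, or_true, iff_true]
      omega
  · have h4 : Used Y kd lev p e ↔ ml Y kd lev e + 1 = lev p := by
      constructor
      · rintro ⟨-, -, q, hq, heq, hl⟩
        have h5 : ml Y kd lev e ≤ lev q := ml_le hq heq
        omega
      · intro h5
        obtain ⟨q, hq, heq, hl⟩ := exists_ml (Y := Y) (kd := kd) (lev := lev) (x := e) ⟨p, hp, h⟩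
        exact ⟨he, h, q, hq, heq, by omega⟩
    rw [rk_p hp, rk_e3 he ht, Prod.Lex.toLex_lt_toLex, h4]
    simp only [ht, false_and, or_false]
    omega

private theorem rk_ne_ep (hd : Hgt Y kd lev FX dst) {e p : U} (he : kd e = 1) (hp : kd p = 2) (h : Y.Edge e p) :
    rk Y kd lev FX dst e ≠ rk Y kd lev FX dst p := by
  intro h1
  by_cases ht : TyI Y kd lev e
  · by_cases hF : FX e
    · rw [rk_p hp, rk_e1 he ht hF] at h1
      exact hd.ne e p ⟨ht, hF, hp, h⟩ (congrArg Prod.snd (toLex.injective h1))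
    · rw [rk_p hp, rk_e2 he ht hF] at h1
      have h2 : 4 * ml Y kd lev e = 4 * lev p + 1 := congrArg Prod.fst (toLex.injective h1)
      omega
  · rw [rk_p hp, rk_e3 he ht] at h1
    have h2 : 4 * ml Y kd lev e + 2 = 4 * lev p + 1 := congrArg Prod.fst (toLex.injective h1)
    omega

private theorem rk_ne_ge {g e : U} (hg : kd g = 0) (he : kd e = 1) :
    rk Y kd lev FX dst g ≠ rk Y kd lev FX dst e := by
  intro h1
  by_cases ht : TyI Y kd lev e
  · by_cases hF : FX e
    · rw [rk_g hg, rk_e1 he ht hF] at h1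
      have h2 : 4 * ml Y kd lev g + 3 = 4 * ml Y kd lev e + 1 := congrArg Prod.fst (toLex.injective h1)
      omega
    · rw [rk_g hg, rk_e2 he ht hF] at h1
      have h2 : 4 * ml Y kd lev g + 3 = 4 * ml Y kd lev e := congrArg Prod.fst (toLex.injective h1)
      omega
  · rw [rk_g hg, rk_e3 he ht] at h1
    have h2 : 4 * ml Y kd lev g + 3 = 4 * ml Y kd lev e + 2 := congrArg Prod.fst (toLex.injective h1)
    omega

private theorem rk_ne_gp {g p : U} (hg : kd g = 0) (hp : kd p = 2) :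
    rk Y kd lev FX dst g ≠ rk Y kd lev FX dst p := by
  intro h1
  rw [rk_g hg, rk_p hp] at h1
  have h2 : 4 * ml Y kd lev g + 3 = 4 * lev p + 1 := congrArg Prod.fst (toLex.injective h1)
  omega

theorem rk_ne (hT : TC Y kd τ) (hL : Lv Y kd lev o) (hd : Hgt Y kd lev FX dst) {x y : U} (h : Y.Edge x y) :
    rk Y kd lev FX dst x ≠ rk Y kd lev FX dst y := by
  have h1 := hT.kd_le x
  have h2 := hT.kd_le y
  have h3 := hT.kd_ne x y h
  have h4 : (kd x = 0 ∧ kd y = 1) ∨ (kd x = 0 ∧ kd y = 2) ∨ (kd x = 1 ∧ kd y = 0) ∨ (kd x = 1 ∧ kd y = 2) ∨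
      (kd x = 2 ∧ kd y = 0) ∨ (kd x = 2 ∧ kd y = 1) := by omega
  rcases h4 with ⟨hx, hy⟩ | ⟨hx, hy⟩ | ⟨hx, hy⟩ | ⟨hx, hy⟩ | ⟨hx, hy⟩ | ⟨hx, hy⟩
  · exact rk_ne_ge hx hy
  · exact rk_ne_gp hx hy
  · exact (rk_ne_ge hy hx).symm
  · exact rk_ne_ep hd hx hy h
  · exact (rk_ne_gp hy hx).symm
  · exact (rk_ne_ep hd hy hx (Y.symm _ _ h)).symm

end Pool.Agent.H52.FR
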