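import Pool.Agent.H52.FR.Dlp
import Pool.Agent.H52.FR.Dlh
import Pool.Agent.H52.FR.Dlc

/-!
# [H52 FR RT] roots and depth

All vertices are `Good` for `R = rk ..` with `dst` from `exists_hgt`.  The root of `x`: the critical vertex of the descending link if there is one, otherwise any vertex of it
(otherwise `x`).  `δ x y` = distance of `root x` and `y` in `DG x`.  `ne`, `uniq`: `dist_ne`, `dist_unique` (reachable by `Good.con`; the ends of an edge of `DG x` are in the
descending link, `Cpx.edge`).  `root`: by `exists_closer` a vertex `a` with `Par x a` is `root x`.  `crit`: a critical vertex is the root by `Good.uni`, it has distance `0`.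
`base`: if `x` has no descending neighbour then, if it has a neighbour at all, it is a point of level `0` in a cell (`down_pt`, `down_hyp`, `down_cell`; a point with a neighbour is in a cell: `cell_of`), so `x = o` by
`Lv.zero`.
-/

set_option autoImplicit false

namespace Pool.Agent.H52.FR

open Pool.Agent.H54.CX Pool.Agent.H59.DE

variable {U T : Type} {Y : Cpx U} {kd : U → ℕ} {τ : U → T} {lev : U → ℕ} {o : U} {FX : U → Prop}

/-- rooted descending links -/
structure Rooted (Y : Cpx U) (kd : U → ℕ) (FX : U → Prop) {α : Type} [LinearOrder α] (R : U → α) (δ : U → U → ℕ) (o : U) :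
    Prop where
  rk : ∀ x y, Y.Edge x y → R x ≠ R y
  ne : ∀ x y z, Y.Tri x y z → R y < R x → R z < R x → δ x y ≠ δ x z
  uniq : ∀ x y z z', Y.Tri x y z → Y.Tri x y z' → R y < R x → R z < R x → R z' < R x →
    δ x z < δ x y → δ x z' < δ x y → z = z'
  root : ∀ x a a', Par Y R δ x a → Par Y R δ x a' → a = a'
  crit : ∀ x y z, Y.Tri x y z → R y < R x → R z < R x → δ x z < δ x y → ¬ Crit kd FX x y
  base : ∀ x, (∀ y, Y.Edge x y → ¬ R y < R x) → x = o

section root

variable {α : Type} [LinearOrder α] {R : U → α}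

open Classical in
/-- the root of the descending link -/
private noncomputable def rt (Y : Cpx U) (kd : U → ℕ) (FX : U → Prop) (R : U → α) (x : U) : U :=
  if h : ∃ y, DV Y R x y ∧ Crit kd FX x y then h.choose else if h : ∃ y, DV Y R x y then h.choose else x

private theorem rt_dv {x y : U} (h : DV Y R x y) : DV Y R x (rt Y kd FX R x) := by
  by_cases h1 : ∃ y, DV Y R x y ∧ Crit kd FX x y
  · rw [rt, dif_pos h1]
    exact h1.choose_spec.1
  · have h2 : ∃ y, DV Y R x y := ⟨y, h⟩
    rw [rt, dif_neg h1, dif_pos h2]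
    exact h2.choose_spec

private theorem rt_crit {x y : U} (hG : Good Y kd R FX x) (h : DV Y R x y) (hc : Crit kd FX x y) :
    y = rt Y kd FX R x := by
  have h1 : ∃ y, DV Y R x y ∧ Crit kd FX x y := ⟨y, h, hc⟩
  rw [rt, dif_pos h1]
  exact hG.uni _ _ h h1.choose_spec.1 hc h1.choose_spec.2

private theorem rt_reach {x y : U} (hG : Good Y kd R FX x) (h : DV Y R x y) :
    (DG Y R x).Reachable (rt Y kd FX R x) y := hG.con _ _ (rt_dv h) h

end root

theorem exists_rooted (hT : TC Y kd τ) (hL : Lv Y kd lev o) (hF : FixP Y kd FX)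
    (hc : ∀ x, x = o ∨ ∃ y, Y.Edge x y) : ∃ (R : U → ℕ ×ₗ ℕ) (δ : U → U → ℕ), Rooted Y kd FX R δ o := by
  obtain ⟨dst, hd⟩ := exists_hgt hT hL hF
  have good : ∀ x, Good Y kd (rk Y kd lev FX dst) FX x := by
    intro x
    have h1 := hT.kd_le x
    have h2 : kd x = 0 ∨ kd x = 1 ∨ kd x = 2 := by omega
    rcases h2 with h2 | h2 | h2
    · exact good_cell hT hL h2
    · exact good_hyp hT hL hd h2
    · exact good_pt hT hL hF hd h2
  refine ⟨rk Y kd lev FX dst, fun x y => (DG Y (rk Y kd lev FX dst) x).dist (rt Y kd FX (rk Y kd lev FX dst) x) y,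
    ?_⟩
  have adj : ∀ x y z, Y.Tri x y z → rk Y kd lev FX dst y < rk Y kd lev FX dst x →
      rk Y kd lev FX dst z < rk Y kd lev FX dst x → (DG Y (rk Y kd lev FX dst) x).Adj y z ∧
      DV Y (rk Y kd lev FX dst) x y := fun x y z h1 h2 h3 => ⟨⟨h1, h2, h3⟩, Y.edge _ _ _ h1, h2⟩
  refine ⟨fun x y h => rk_ne hT hL hd h, ?_, ?_, ?_, ?_, ?_⟩
  · intro x y z h1 h2 h3
    obtain ⟨a, b⟩ := adj x y z h1 h2 h3
    exact dist_ne (good x).acy (rt_reach (good x) b) a
  · intro x y z z' h1 h1' h2 h3 h4 h5 h6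
    obtain ⟨a, b⟩ := adj x y z h1 h2 h3
    exact dist_unique (good x).acy (rt_reach (good x) b) a (adj x y z' h1' h2 h4).1 h5 h6
  · have key : ∀ x a, Par Y (rk Y kd lev FX dst)
        (fun x y => (DG Y (rk Y kd lev FX dst) x).dist (rt Y kd FX (rk Y kd lev FX dst) x) y) x a →
        a = rt Y kd FX (rk Y kd lev FX dst) x := by
      intro x a h
      by_contra hne
      obtain ⟨z, z1, z2⟩ := exists_closer (rt_reach (good x) ⟨h.1, h.2.1⟩) hne
      have h3 := h.2.2 z z1.1 z1.2.2
      exact absurd z2 (not_lt.2 h3.le)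
    intro x a a' h h'
    rw [key x a h, key x a' h']
  · intro x y z h1 h2 h3 h4 h5
    obtain ⟨a, b⟩ := adj x y z h1 h2 h3
    have h6 := rt_crit (good x) b h5
    rw [← h6, SimpleGraph.dist_self] at h4
    exact absurd h4 (Nat.not_lt_zero _)
  · intro x h
    rcases hc x with h0 | ⟨y, hy⟩
    · exact h0
    have nd : ¬ ∃ y, DV Y (rk Y kd lev FX dst) x y := fun ⟨y, h1⟩ => h y h1.1 h1.2
    have h1 := hT.kd_le x
    have h2 : kd x = 0 ∨ kd x = 1 ∨ kd x = 2 := by omega
    rcases h2 with h2 | h2 | h2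
    · exact absurd (down_cell hT hL h2 hy) nd
    · exact absurd (down_hyp hT hL h2 hy) nd
    · have h3 := hT.kd_ne _ _ hy
      have h4 := hT.kd_le y
      have h5 : kd y = 0 ∨ kd y = 1 := by omega
      have h6 : ∃ c, kd c = 0 ∧ Y.Edge c x := by
        rcases h5 with h5 | h5
        · exact ⟨y, h5, Y.symm _ _ hy⟩
        · obtain ⟨c, hc⟩ := cell_of hT h5 h2 (Y.symm _ _ hy)
          exact ⟨c, hc.1, hc.gp⟩
      obtain ⟨c, c1, c2⟩ := h6
      by_cases hl : lev x = 0
      · exact hL.zero x c h2 c1 c2 hl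
      · exact absurd (down_pt hT hL h2 c1 c2 hl) nd

end Pool.Agent.H52.FR
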