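import Pool.Agent.H52.FR.Cel

/-!
# [H52 FR STR] straight paths

`str1`: let `k` be a cell with `IsG0 p k`, `c`, `c'` the lower cells of `e`, `e'` (`ge_exists`, they contain `p`, `t3_of`; `ml c + 1 = lev p`).  `low_g0`: `c = k` or a used `a` in `c`
at `p`; same for `c'`.  `c = k = c'` contradicts `Far` (common cell); `c = k`, `a'` used in `c'`: path `e a' e'` (`used_g0`; `a' ≠ e, e'` because `a'` is not of
type I), contradiction.  So `c ≠ k ≠ c'`, and `a = a'` gives the path `e a e'`.  So `a ≠ a'`, both in `k`.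
`str2` (one step): the data of `str1` at `p₁` for `e₁ e₂`: `k₁`, `a₁` in the lower cell of `e₁`, `b₁` in the lower cell `c` of `e₂`; at `p₂` for `e₂ e₃`: `k₂`, `a₂` in the
lower cell `c` of `e₂` (the same cell, `ge_unique`), `b₂` in the lower cell of `e₃`.  The lower points `q₁` of `b₁` and `q₂` of `a₂` are points of `c` of level
`ml c = n - 1`.  CLAIM `q₁ = q₂`.  Suppose not.  `pair_tyI` in `c`: a hyperedge `v` of type I of level `n - 1` with `q₁`, `q₂`.  Let `u₁` be the hyperedge of type I of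
level `n - 1` of `k₁` which contains the lower points of `a₁` and of `b₁` (they are different by `lg_of`; `pair_tyI` in `k₁`, `ml k₁ = n - 1`; the lower point of `b₁` is `q₁`).  In the link of `q₁`: `u₁`, `b₁` in `k₁`,
`b₁`, `v` in `c`; `b₁` is not of type I.  `u₁ = v` would give `k₁ = c` (`l2_of` with `u₁ = v`, `b₁`), then `e₂`, `a₁`, `b₁` are hyperedges of `c` at `p₁` (`two_eq`), contradiction.
So `AdjH u₁ b₁`, `AdjH b₁ v`, `u₁ ≠ v`.  `Far q₁ u₁ v` is false (the path), so by the contrapositive of the argument of `str1` we look at the lower cells `d`, `d'` of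
`u₁`, `v` and `k` with `IsG0 q₁ k`: `d = k = d'`: `AdjH u₁ v`, `no3` with `b₁`; `d = k`, `a'` used in `d'`: `u₁ a' v b₁` is a 4-cycle, `no4`:
`a' = b₁` or `u₁ = v`; `b₁` is not used at `q₁` (its other points are on a higher level); same for `d' = k`; `d ≠ k ≠ d'` with used `a` in `d`, `a'` in `d'`: `a = a'`: the same 4-cycle;
`a ≠ a'`: 5-cycle `u₁ a a' v b₁`, `no5`.
So `q := q₁ = q₂`.  Let `u₂` be the hyperedge of `k₂` as above.  In the link of `q`: `u₁` and `b₁` in `k₁`, `b₁` and `a₂` in `c`, `a₂` and `u₂` in `k₂`.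
`b₁ ≠ a₂` (otherwise it contains `p₁`, `p₂`, as `e₂` does, `lg_of` in `c`, so it is `e₂`; but `b₁` is not of type I).  `u₁ ≠ u₂`: otherwise triangle `u₁ b₁ a₂`.  `Far q u₁ u₂`: `AdjH u₁ u₂` gives the 4-cycle
`u₁ b₁ a₂ u₂`: `u₁ = a₂` or `b₁ = u₂`, impossible by type I; `AdjH u₁ x`, `AdjH x u₂` gives the closed path `u₁ b₁ a₂ u₂ x` of length 5: `no5`.
`no_straight`: induction on `n`.  Type I and `lev p = n` need `n ≥ 1` (`tyI_pos`).  From a straight sequence at level `n + 1` choose (`str1` at each `p i`: `k i`, `a i`, `b i`, the lower point of `b i`, `u i`);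
the new sequence is `u i`, with the points `q i` = lower point of `b i` = lower point of `a (i + 1)` (`str2`);
`q i ≠ q (i + 1)`: `q i` is in `a (i + 1)`, `q (i + 1)` is in `b (i + 1)`, both in `k (i + 1)` with the common point `p (i + 1)` (`lg_of`).
-/

set_option autoImplicit false

namespace Pool.Agent.H52.FR

open Pool.Agent.H54.CX Pool.Agent.H59.DE

variable {U T : Type} {Y : Cpx U} {kd : U → ℕ} {τ : U → T} {lev : U → ℕ} {o : U}

/-- the data at the corner `p` of a straight path: `k` is the cell of the lower neighbours, `a`, `b` are used, `a` is in the lower cell of `e`,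
`b` in the lower cell of `e'`, `q`, `r` are the lower points of `a`, `b`, and `u` is the hyperedge of `k` which contains them -/
structure Cor (Y : Cpx U) (kd : U → ℕ) (lev : U → ℕ) (p e e' k a b q r u : U) : Prop where
  ne : a ≠ b
  a3 : T3 Y kd k a p
  b3 : T3 Y kd k b p
  kl : ml Y kd lev k + 1 = lev p
  ua : Used Y kd lev p a
  ub : Used Y kd lev p b
  ca : ∃ c, kd c = 0 ∧ Y.Edge c e ∧ ml Y kd lev c + 1 = lev p ∧ T3 Y kd c a p
  cb : ∃ c, kd c = 0 ∧ Y.Edge c e' ∧ ml Y kd lev c + 1 = lev p ∧ T3 Y kd c b p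
  q3 : T3 Y kd k a q
  r3 : T3 Y kd k b r
  ql : lev q + 1 = lev p
  rl : lev r + 1 = lev p
  qr : q ≠ r
  ty : TyI Y kd lev u
  ul : ml Y kd lev u + 1 = lev p
  uq : T3 Y kd k u q
  ur : T3 Y kd k u r

/-- the lower cell of a hyperedge of type I at `p` -/
theorem low_cell (hT : TC Y kd τ) (hL : Lv Y kd lev o) {p e : U} (he : TyI Y kd lev e) (hp : kd p = 2)
    (h1 : Y.Edge e p) : ∃ c, ml Y kd lev c + 1 = lev p ∧ T3 Y kd c e p := by
  obtain ⟨c, hc, hce, hcl⟩ := ge_exists hT hL he hp h1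
  exact ⟨c, by rw [hcl, he.2 p hp h1], t3_of hT hc he.1 hp hce h1⟩

/-- a used hyperedge is not of type I -/
theorem used_ne (hT : TC Y kd τ) (hL : Lv Y kd lev o) {p a e : U} (hp : kd p = 2) (ha : Used Y kd lev p a)
    (he : TyI Y kd lev e) : a ≠ e := by
  rintro rfl
  exact (used_ml hT hL hp ha).2 he

theorem str1 (hT : TC Y kd τ) (hL : Lv Y kd lev o) {p e e' : U} (he : TyI Y kd lev e) (he' : TyI Y kd lev e')
    (hp : kd p = 2) (h1 : Y.Edge e p) (h2 : Y.Edge e' p) (hf : Far Y kd p e e') :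
    ∃ k a b q r u, Cor Y kd lev p e e' k a b q r u := by
  have hpos : lev p ≠ 0 := by
    have := tyI_pos hT hL he hp h1
    rw [he.2 p hp h1]
    omega
  obtain ⟨c, hcl, hc⟩ := low_cell hT hL he hp h1
  obtain ⟨c', hcl', hc'⟩ := low_cell hT hL he' hp h2
  obtain ⟨k, hk⟩ := g0_exists hT hL hp hc.1 hc.gp hpos
  have hkl := g0_low hT hL hp hk hpos
  obtain ⟨hne, hna, hnp⟩ := hf
  rcases low_g0 hT hL hp hk hc.1 hc.gp hcl with rfl | ⟨a, ha, ha3⟩
  · exfalso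
    rcases low_g0 hT hL hp hk hc'.1 hc'.gp hcl' with rfl | ⟨a', ha', ha3'⟩
    · exact hna ⟨hne, _, hc, hc'⟩
    · have h3 := used_g0 hT hL hp hk ha'
      exact hnp a' ⟨(used_ne hT hL hp ha' he).symm, _, hc, h3⟩ ⟨used_ne hT hL hp ha' he', _, ha3', hc'⟩
  · rcases low_g0 hT hL hp hk hc'.1 hc'.gp hcl' with rfl | ⟨a', ha', ha3'⟩
    · exfalso
      have h3 := used_g0 hT hL hp hk ha
      exact hnp a ⟨(used_ne hT hL hp ha he).symm, _, hc, ha3⟩ ⟨used_ne hT hL hp ha he', _, h3, hc'⟩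
    · have hab : a ≠ a' := by
        rintro rfl
        exact hnp a ⟨(used_ne hT hL hp ha he).symm, _, hc, ha3⟩ ⟨used_ne hT hL hp ha he', _, ha3', hc'⟩
      have hka := used_g0 hT hL hp hk ha
      have hkb := used_g0 hT hL hp hk ha'
      obtain ⟨q, hq, haq, hql⟩ := ha.2.2
      obtain ⟨r, hr, har, hrl⟩ := ha'.2.2
      have hq3 := t3_of hT hka.1 ha.1 hq hka.ge haq
      have hr3 := t3_of hT hkb.1 ha'.1 hr hkb.ge har
      have hqr : q ≠ r := by
        rintro rfl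
        have h3 := lg_of hT hka hkb hq3 hr3 hab
        rw [← h3] at hql
        omega
      obtain ⟨u, hu, hul, huq, hur⟩ := pair_tyI hT hL hk.1 hq hr hq3.gp hr3.gp hqr (by omega) (by omega)
      exact ⟨k, a, a', q, r, u, hab, hka, hkb, hkl, ha, ha', ⟨c, hc.1, hc.ge, hcl, ha3⟩, ⟨c', hc'.1, hc'.ge, hcl', ha3'⟩,
        hq3, hr3, hql, hrl, hqr, hu, by omega, huq, hur⟩

/-- two different hyperedges of type I on one level at a point are not both adjacent to a hyperedge which is not used -/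
theorem no_between (hT : TC Y kd τ) (hL : Lv Y kd lev o) {q u v b : U} (hq : kd q = 2) (hu : TyI Y kd lev u)
    (hv : TyI Y kd lev v) (huq : Y.Edge u q) (hvq : Y.Edge v q) (h1 : AdjH Y kd q u b) (h2 : AdjH Y kd q b v)
    (hb : ¬ Used Y kd lev q b) : u = v := by
  by_contra hne
  have hpos : lev q ≠ 0 := by
    have := tyI_pos hT hL hu hq huq
    rw [hu.2 q hq huq]
    omega
  obtain ⟨d, hdl, hd⟩ := low_cell hT hL hu hq huq
  obtain ⟨d', hdl', hd'⟩ := low_cell hT hL hv hq hvq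
  obtain ⟨k, hk⟩ := g0_exists hT hL hq hd.1 hd.gp hpos
  -- a used hyperedge which is adjacent to both gives a 4-cycle
  have key4 : ∀ a, Used Y kd lev q a → AdjH Y kd q u a → AdjH Y kd q a v → False := by
    intro a ha h3 h4
    rcases no4 hT h3 h4 h2.symm h1.symm with h | h
    · exact hne h
    · subst h
      exact hb ha
  rcases low_g0 hT hL hq hk hd.1 hd.gp hdl with rfl | ⟨a, ha, ha3⟩
  · rcases low_g0 hT hL hq hk hd'.1 hd'.gp hdl' with rfl | ⟨a', ha', ha3'⟩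
    · exact no3 hT h1 h2 (AdjH.symm ⟨hne, _, hd, hd'⟩)
    · have h3 := used_g0 hT hL hq hk ha'
      exact key4 a' ha' ⟨(used_ne hT hL hq ha' hu).symm, _, hd, h3⟩ ⟨used_ne hT hL hq ha' hv, _, ha3', hd'⟩
  · rcases low_g0 hT hL hq hk hd'.1 hd'.gp hdl' with rfl | ⟨a', ha', ha3'⟩
    · have h3 := used_g0 hT hL hq hk ha
      exact key4 a ha ⟨(used_ne hT hL hq ha hu).symm, _, hd, ha3⟩ ⟨used_ne hT hL hq ha hv, _, h3, hd'⟩
    · by_cases hab : a = a'
      · subst hab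
        exact key4 a ha ⟨(used_ne hT hL hq ha hu).symm, _, hd, ha3⟩ ⟨used_ne hT hL hq ha hv, _, ha3', hd'⟩
      · exact no5 hT ⟨(used_ne hT hL hq ha hu).symm, _, hd, ha3⟩
          ⟨hab, _, used_g0 hT hL hq hk ha, used_g0 hT hL hq hk ha'⟩
          ⟨used_ne hT hL hq ha' hv, _, ha3', hd'⟩ h2.symm h1.symm

theorem str2 (hT : TC Y kd τ) (hL : Lv Y kd lev o) {p₁ p₂ e₁ e₂ e₃ k₁ a₁ b₁ q₁ r₁ u₁ k₂ a₂ b₂ q₂ r₂ u₂ : U}
    (he : TyI Y kd lev e₂) (h1 : Y.Edge e₂ p₁) (h2 : Y.Edge e₂ p₂) (hp₁ : kd p₁ = 2) (hp₂ : kd p₂ = 2) (hp : p₁ ≠ p₂)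
    (h3 : Cor Y kd lev p₁ e₁ e₂ k₁ a₁ b₁ q₁ r₁ u₁) (h4 : Cor Y kd lev p₂ e₂ e₃ k₂ a₂ b₂ q₂ r₂ u₂) :
    r₁ = q₂ ∧ Far Y kd r₁ u₁ u₂ := by
  have hl1 := he.2 p₁ hp₁ h1
  have hl2 := he.2 p₂ hp₂ h2
  obtain ⟨c, hc, hce, hcl, hcb⟩ := h3.cb
  obtain ⟨c', hc', hce', hcl', hca⟩ := h4.ca
  have hcc : c = c' := ge_unique hT hL he hc hce (by omega) hc' hce' (by omega)
  subst hcc
  have hr1 : kd r₁ = 2 := h3.r3.2.2.1
  have hq2 : kd q₂ = 2 := h4.q3.2.2.1
  have hcr : T3 Y kd c b₁ r₁ := t3_of hT hc hcb.2.1 hr1 hcb.ge h3.r3.ep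
  have hcq : T3 Y kd c a₂ q₂ := t3_of hT hc hca.2.1 hq2 hca.ge h4.q3.ep
  have hb1e : b₁ ≠ e₂ := used_ne hT hL hp₁ h3.ub he
  have ha2e : a₂ ≠ e₂ := used_ne hT hL hp₂ h4.ua he
  have hce1 : T3 Y kd c e₂ p₁ := t3_of hT hc he.1 hp₁ hce h1
  have hce2 : T3 Y kd c e₂ p₂ := t3_of hT hc he.1 hp₂ hce h2
  -- `b₁` is not used at `r₁`
  have hb1u : ¬ Used Y kd lev r₁ b₁ := by
    intro h
    have h5 := (used_ml hT hL hr1 h).1
    have h6 := (used_ml hT hL hp₁ h3.ub).1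
    have h7 := h3.rl
    omega
  have hu1b : u₁ ≠ b₁ := (used_ne hT hL hp₁ h3.ub h3.ty).symm
  have hq : r₁ = q₂ := by
    by_contra hne
    obtain ⟨v, hv, hvl, hvr, hvq⟩ := pair_tyI hT hL hc hr1 hq2 hcr.gp hcq.gp hne
      (by have := h3.rl; omega) (by have := h4.ql; omega)
    have hbv : b₁ ≠ v := used_ne hT hL hp₁ h3.ub hv
    have huv : u₁ = v := no_between hT hL hr1 h3.ty hv h3.ur.ep hvr.ep ⟨hu1b, _, h3.ur, h3.r3⟩ ⟨hbv, _, hcr, hvr⟩ hb1u
    subst huv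
    have hk : k₁ = c := l2_of hT h3.ur h3.r3 hvr hcr hu1b
    subst hk
    rcases two_eq hT h3.a3 h3.b3 hce1 with h | h | h
    · exact h3.ne h
    · exact hb1e h
    · exact used_ne hT hL hp₁ h3.ua he h
  refine ⟨hq, ?_⟩
  subst hq
  have hba : b₁ ≠ a₂ := by
    rintro rfl
    exact hp (lg_of hT hce1 hcb hce2 hca hb1e.symm)
  have hu2a : u₂ ≠ a₂ := (used_ne hT hL hp₂ h4.ua h4.ty).symm
  have A1 : AdjH Y kd r₁ u₁ b₁ := ⟨hu1b, _, h3.ur, h3.r3⟩
  have A2 : AdjH Y kd r₁ b₁ a₂ := ⟨hba, _, hcr, hcq⟩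
  have A3 : AdjH Y kd r₁ a₂ u₂ := ⟨hu2a.symm, _, h4.q3, h4.uq⟩
  refine ⟨?_, ?_, ?_⟩
  · rintro rfl
    exact no3 hT A1 A2 A3
  · intro h
    rcases no4 hT A1 A2 A3 h.symm with h | h
    · exact used_ne hT hL hp₂ h4.ua h3.ty h.symm
    · exact used_ne hT hL hp₁ h3.ub h4.ty h
  · intro x hx hx'
    exact no5 hT A1 A2 A3 hx'.symm hx.symm

/-- an infinite straight path at level `n` -/
structure Straight (Y : Cpx U) (kd : U → ℕ) (lev : U → ℕ) (n : ℕ) (e p : ℕ → U) : Prop where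
  ty : ∀ i, TyI Y kd lev (e i)
  ml : ∀ i, ml Y kd lev (e i) = n
  pt : ∀ i, kd (p i) = 2
  l : ∀ i, Y.Edge (e i) (p i)
  r : ∀ i, Y.Edge (e (i + 1)) (p i)
  ne : ∀ i, p i ≠ p (i + 1)
  far : ∀ i, Far Y kd (p i) (e i) (e (i + 1))

theorem no_straight (hT : TC Y kd τ) (hL : Lv Y kd lev o) (n : ℕ) (e p : ℕ → U) : ¬ Straight Y kd lev n e p := by
  induction n generalizing e p with
  | zero =>
    intro h
    have := tyI_pos hT hL (h.ty 0) (h.pt 0) (h.l 0)
    have h2 := h.ml 0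
    omega
  | succ n ih =>
    intro h
    have h1 : ∀ i, ∃ k a b q r u, Cor Y kd lev (p i) (e i) (e (i + 1)) k a b q r u := fun i =>
      str1 hT hL (h.ty i) (h.ty (i + 1)) (h.pt i) (h.l i) (h.r i) (h.far i)
    choose k a b q r u hc using h1
    have h2 : ∀ i, r i = q (i + 1) ∧ Far Y kd (r i) (u i) (u (i + 1)) := fun i =>
      str2 hT hL (h.ty (i + 1)) (h.r i) (h.l (i + 1)) (h.pt i) (h.pt (i + 1)) (h.ne i) (hc i) (hc (i + 1))
    have hlev : ∀ i, lev (p i) = n + 1 := fun i => by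
      rw [(h.ty i).2 _ (h.pt i) (h.l i), h.ml i]
    refine ih u r ⟨fun i => (hc i).ty, fun i => ?_, fun i => (hc i).r3.2.2.1, fun i => (hc i).ur.ep, fun i => ?_,
      fun i => ?_, fun i => (h2 i).2⟩
    · have h3 := (hc i).ul
      rw [hlev i] at h3
      omega
    · rw [(h2 i).1]
      exact (hc (i + 1)).uq.ep
    · rw [(h2 i).1]
      exact (hc (i + 1)).qr

end Pool.Agent.H52.FR
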